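import Mathlib

set_option autoImplicit false

namespace Pool.Agent.Work.MP_c0f83f_co

/-- `G` has a `K₄` minor: four pairwise disjoint vertex sets, each inducing a (nonempty)
connected subgraph, any two of them joined by an edge of `G`. -/
def HasK4Minor {V : Type} (G : SimpleGraph V) : Prop :=
  ∃ B : Fin 4 → Set V, (∀ i, (G.induce (B i)).Connected) ∧
    (∀ i j, i ≠ j → Disjoint (B i) (B j)) ∧
    (∀ i j, i ≠ j → ∃ u ∈ B i, ∃ v ∈ B j, G.Adj u v)

/-- `G` is 2-CBU: it is the contact graph of closed axis-parallel rectangles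
`[l v, r v] × [b v, t v]` with nonempty, pairwise disjoint interiors, any two of which are
disjoint or meet in a vertical segment of positive length. -/
def Is2CBU {V : Type} (G : SimpleGraph V) : Prop :=
  ∃ l r b t : V → ℝ, (∀ v, l v < r v ∧ b v < t v) ∧
    ∀ u v : V, u ≠ v →
      Disjoint (interior (Set.Icc (l u) (r u) ×ˢ Set.Icc (b u) (t u)))
        (interior (Set.Icc (l v) (r v) ×ˢ Set.Icc (b v) (t v))) ∧
      ((Set.Icc (l u) (r u) ×ˢ Set.Icc (b u) (t u)) ∩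
          (Set.Icc (l v) (r v) ×ˢ Set.Icc (b v) (t v)) = ∅ ∨
        ∃ x y₁ y₂ : ℝ, y₁ < y₂ ∧
          (Set.Icc (l u) (r u) ×ˢ Set.Icc (b u) (t u)) ∩
            (Set.Icc (l v) (r v) ×ˢ Set.Icc (b v) (t v)) = {x} ×ˢ Set.Icc y₁ y₂) ∧
      (G.Adj u v ↔ ((Set.Icc (l u) (r u) ×ˢ Set.Icc (b u) (t u)) ∩
          (Set.Icc (l v) (r v) ×ˢ Set.Icc (b v) (t v))).Nonempty)

end Pool.Agent.Work.MP_c0f83f_co
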