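import Mathlib
import Pool.Agent.Work.MP_c0f83f_co.Defs

-- merged part: Pool.Agent.Work.MP_c0f83f_co.Basic
section
/-!
Connectivity inside a vertex set, short cycles, and constructions of `K₄` minors.
-/

set_option autoImplicit false
set_option linter.unusedSimpArgs false

namespace Pool.Agent.Work.MP_c0f83f_co

variable {V : Type} {G : SimpleGraph V}

/-- `u` and `v` are joined by a walk inside `B`. -/
def In (G : SimpleGraph V) (B : Set V) (u v : V) : Prop :=
  Relation.ReflTransGen (fun x y => G.Adj x y ∧ x ∈ B ∧ y ∈ B) u v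

theorem In.refl (B : Set V) (u : V) : In G B u u := Relation.ReflTransGen.refl

theorem In.trans {B : Set V} {u v w : V} (h : In G B u v) (h' : In G B v w) : In G B u w :=
  Relation.ReflTransGen.trans h h'

theorem In.single {B : Set V} {u v : V} (h : G.Adj u v) (hu : u ∈ B) (hv : v ∈ B) :
    In G B u v := Relation.ReflTransGen.single ⟨h, hu, hv⟩

theorem In.tail {B : Set V} {u v w : V} (h : In G B u v) (h' : G.Adj v w) (hv : v ∈ B)
    (hw : w ∈ B) : In G B u w := h.trans (In.single h' hv hw)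

theorem In.symm {B : Set V} {u v : V} (h : In G B u v) : In G B v u := by
  induction h with
  | refl => exact In.refl _ _
  | tail _ h2 ih => exact (In.single h2.1.symm h2.2.2 h2.2.1).trans ih

theorem In.mono {B C : Set V} (hBC : B ⊆ C) {u v : V} (h : In G B u v) : In G C u v := by
  induction h with
  | refl => exact In.refl _ _
  | tail _ h2 ih => exact ih.tail h2.1 (hBC h2.2.1) (hBC h2.2.2)

theorem In.mem {B : Set V} {u v : V} (h : In G B u v) (hu : u ∈ B) : v ∈ B := by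
  induction h with
  | refl => exact hu
  | tail _ h2 _ => exact h2.2.2

/-- A walk inside `B` from `u` stays in the set of vertices reachable from `u` inside `B`. -/
theorem In.restrict {B : Set V} {u v : V} (h : In G B u v) :
    In G {w | In G B u w} u v := by
  induction h with
  | refl => exact In.refl _ _
  | tail h1 h2 ih => exact ih.tail h2.1 h1 (Relation.ReflTransGen.tail h1 h2)

/-- A nonempty set in which every vertex is reachable from a root. -/
def Rooted (G : SimpleGraph V) (B : Set V) : Prop := ∃ r ∈ B, ∀ v ∈ B, In G B r v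

theorem Rooted.connected {B : Set V} (h : Rooted G B) : (G.induce B).Connected := by
  obtain ⟨r, hr, h⟩ := h
  have key : ∀ v, In G B r v → ∀ hv : v ∈ B, (G.induce B).Reachable ⟨r, hr⟩ ⟨v, hv⟩ := by
    intro v hv
    induction hv with
    | refl => intro _; rfl
    | tail _ h2 ih =>
      intro hc
      exact (ih h2.2.1).trans (SimpleGraph.Adj.reachable (by simpa using h2.1))
  have : Nonempty B := ⟨⟨r, hr⟩⟩
  refine ⟨fun u v => ?_⟩
  exact (key u (h u u.2) u.2).symm.trans (key v (h v v.2) v.2)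

theorem Rooted.union {A B : Set V} (hA : Rooted G A) (hB : Rooted G B) {u v : V} (hu : u ∈ A)
    (hv : v ∈ B) (h : G.Adj u v) : Rooted G (A ∪ B) := by
  obtain ⟨r, hr, hA⟩ := hA
  obtain ⟨s, hs, hB⟩ := hB
  refine ⟨r, Or.inl hr, ?_⟩
  rintro w (hw | hw)
  · exact (hA w hw).mono Set.subset_union_left
  · exact (((hA u hu).mono Set.subset_union_left).tail h (Or.inl hu) (Or.inr hv)).trans
      (((hB v hv).symm.trans (hB w hw)).mono Set.subset_union_right)

theorem rooted_reach (B : Set V) (u : V) : Rooted G {w | In G B u w} :=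
  ⟨u, In.refl _ _, fun _ hv => In.restrict hv⟩

theorem no_k4 (hK : ¬ HasK4Minor G) {A B C D : Set V} (hA : Rooted G A) (hB : Rooted G B)
    (hC : Rooted G C) (hD : Rooted G D)
    (dAB : Disjoint A B) (dAC : Disjoint A C) (dAD : Disjoint A D) (dBC : Disjoint B C)
    (dBD : Disjoint B D) (dCD : Disjoint C D)
    (aAB : ∃ u ∈ A, ∃ v ∈ B, G.Adj u v) (aAC : ∃ u ∈ A, ∃ v ∈ C, G.Adj u v)
    (aAD : ∃ u ∈ A, ∃ v ∈ D, G.Adj u v) (aBC : ∃ u ∈ B, ∃ v ∈ C, G.Adj u v)
    (aBD : ∃ u ∈ B, ∃ v ∈ D, G.Adj u v) (aCD : ∃ u ∈ C, ∃ v ∈ D, G.Adj u v) : False := by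
  have sw : ∀ {X Y : Set V}, (∃ u ∈ X, ∃ v ∈ Y, G.Adj u v) → ∃ u ∈ Y, ∃ v ∈ X, G.Adj u v :=
    fun ⟨u, hu, v, hv, h⟩ => ⟨v, hv, u, hu, h.symm⟩
  apply hK
  refine ⟨![A, B, C, D], ?_, ?_, ?_⟩
  · intro i
    fin_cases i
    exacts [hA.connected, hB.connected, hC.connected, hD.connected]
  · intro i j hij
    fin_cases i <;> fin_cases j <;>
      first
        | exact absurd rfl hij
        | assumption
        | (apply Disjoint.symm; assumption)
  · intro i j hij
    fin_cases i <;> fin_cases j <;>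
      first
        | exact absurd rfl hij
        | assumption
        | (apply sw; assumption)

theorem no_c3 (hg : 7 ≤ G.egirth) {a b c : V} (h1 : G.Adj a b) (h2 : G.Adj b c)
    (h3 : G.Adj c a) : False := by
  have := SimpleGraph.le_egirth.mp hg a (.cons h1 (.cons h2 (.cons h3 .nil)))
    (by simp [SimpleGraph.Walk.isCycle_def, SimpleGraph.Walk.isTrail_def, h1.ne, h2.ne, h3.ne,
      h1.ne', h2.ne', h3.ne'])
  norm_num at this

theorem no_c4 (hg : 7 ≤ G.egirth) {a b c d : V} (h1 : G.Adj a b) (h2 : G.Adj b c)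
    (h3 : G.Adj c d) (h4 : G.Adj d a) (n1 : a ≠ c) (n2 : b ≠ d) : False := by
  have := SimpleGraph.le_egirth.mp hg a (.cons h1 (.cons h2 (.cons h3 (.cons h4 .nil))))
    (by simp [SimpleGraph.Walk.isCycle_def, SimpleGraph.Walk.isTrail_def, h1.ne, h2.ne, h3.ne,
      h4.ne, h1.ne', h2.ne', h3.ne', h4.ne', n1, n2, n1.symm, n2.symm])
  norm_num at this

theorem no_c5 (hg : 7 ≤ G.egirth) {a b c d e : V} (h1 : G.Adj a b) (h2 : G.Adj b c)
    (h3 : G.Adj c d) (h4 : G.Adj d e) (h5 : G.Adj e a) (n1 : a ≠ c) (n2 : a ≠ d) (n3 : b ≠ d)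
    (n4 : b ≠ e) (n5 : c ≠ e) : False := by
  have := SimpleGraph.le_egirth.mp hg a
    (.cons h1 (.cons h2 (.cons h3 (.cons h4 (.cons h5 .nil)))))
    (by simp [SimpleGraph.Walk.isCycle_def, SimpleGraph.Walk.isTrail_def, h1.ne, h2.ne, h3.ne,
      h4.ne, h5.ne, h1.ne', h2.ne', h3.ne', h4.ne', h5.ne', n1, n2, n3, n4, n5,
      n1.symm, n2.symm, n3.symm, n4.symm, n5.symm])
  norm_num at this

theorem no_c6 (hg : 7 ≤ G.egirth) {a b c d e f : V} (h1 : G.Adj a b) (h2 : G.Adj b c)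
    (h3 : G.Adj c d) (h4 : G.Adj d e) (h5 : G.Adj e f) (h6 : G.Adj f a) (n1 : a ≠ c) (n2 : a ≠ d)
    (n3 : a ≠ e) (n4 : b ≠ d) (n5 : b ≠ e) (n6 : b ≠ f) (n7 : c ≠ e) (n8 : c ≠ f)
    (n9 : d ≠ f) : False := by
  have := SimpleGraph.le_egirth.mp hg a
    (.cons h1 (.cons h2 (.cons h3 (.cons h4 (.cons h5 (.cons h6 .nil))))))
    (by simp [SimpleGraph.Walk.isCycle_def, SimpleGraph.Walk.isTrail_def, h1.ne, h2.ne, h3.ne,
      h4.ne, h5.ne, h6.ne, h1.ne', h2.ne', h3.ne', h4.ne', h5.ne', h6.ne', n1, n2, n3, n4, n5,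
      n6, n7, n8, n9, n1.symm, n2.symm, n3.symm, n4.symm, n5.symm, n6.symm, n7.symm, n8.symm,
      n9.symm])
  norm_num at this

/-- A path `a 0, …, a n` with distinct vertices. -/
structure IsPathFn (G : SimpleGraph V) (a : ℕ → V) (n : ℕ) : Prop where
  adj : ∀ i, i < n → G.Adj (a i) (a (i + 1))
  inj : ∀ i j, i ≤ n → j ≤ n → a i = a j → i = j

/-- A short detour between two close vertices of a path closes a short cycle. -/
theorem no_short_detour (hg : 7 ≤ G.egirth) {a : ℕ → V} {n : ℕ} (ha : IsPathFn G a n)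
    {s t : ℕ} (hst : s < t) (ht : t ≤ n) (h3 : t ≤ s + 3) {x y : V}
    (hx : ∀ i ≤ n, a i ≠ x) (hy : ∀ i ≤ n, a i ≠ y)
    (h1 : G.Adj (a s) x) (hxy : x = y ∨ G.Adj x y) (h2 : G.Adj y (a t)) : False := by
  have ne : ∀ i j, i ≤ n → j ≤ n → i ≠ j → a i ≠ a j := fun i j hi hj hij h =>
    hij (ha.inj i j hi hj h)
  obtain rfl | rfl | rfl : t = s + 1 ∨ t = s + 2 ∨ t = s + 3 := by omega
  · have e0 := ha.adj s (by omega)
    rcases hxy with rfl | hxy
    · exact no_c3 hg e0 h2.symm h1.symm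
    · exact no_c4 hg e0 h2.symm hxy.symm h1.symm (hy s (by omega)) (hx (s + 1) (by omega))
  · have e0 := ha.adj s (by omega)
    have e1 := ha.adj (s + 1) (by omega)
    rcases hxy with rfl | hxy
    · exact no_c4 hg e0 e1 h2.symm h1.symm (ne _ _ (by omega) (by omega) (by omega))
        (hx (s + 1) (by omega))
    · exact no_c5 hg e0 e1 h2.symm hxy.symm h1.symm (ne _ _ (by omega) (by omega) (by omega))
        (hy s (by omega)) (hy (s + 1) (by omega)) (hx (s + 1) (by omega)) (hx (s + 2) (by omega))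
  · have e0 := ha.adj s (by omega)
    have e1 := ha.adj (s + 1) (by omega)
    have e2 := ha.adj (s + 2) (by omega)
    rcases hxy with rfl | hxy
    · exact no_c5 hg e0 e1 e2 h2.symm h1.symm (ne _ _ (by omega) (by omega) (by omega))
        (ne _ _ (by omega) (by omega) (by omega)) (ne _ _ (by omega) (by omega) (by omega))
        (hx (s + 1) (by omega)) (hx (s + 2) (by omega))
    · exact no_c6 hg e0 e1 e2 h2.symm hxy.symm h1.symm (ne _ _ (by omega) (by omega) (by omega))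
        (ne _ _ (by omega) (by omega) (by omega)) (hy s (by omega))
        (ne _ _ (by omega) (by omega) (by omega)) (hy (s + 1) (by omega)) (hx (s + 1) (by omega))
        (hy (s + 2) (by omega)) (hx (s + 2) (by omega)) (hx (s + 3) (by omega))

/-- The vertices `a k` with `i ≤ k < j`. -/
def Arc (a : ℕ → V) (i j : ℕ) : Set V := {v | ∃ k, i ≤ k ∧ k < j ∧ a k = v}

theorem mem_arc {a : ℕ → V} {i j k : ℕ} (h1 : i ≤ k) (h2 : k < j) : a k ∈ Arc a i j :=
  ⟨k, h1, h2, rfl⟩

theorem rooted_arc {a : ℕ → V} {n : ℕ} (ha : IsPathFn G a n) {i j : ℕ} (hij : i < j)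
    (hj : j ≤ n + 1) : Rooted G (Arc a i j) := by
  refine ⟨a i, mem_arc le_rfl hij, ?_⟩
  rintro v ⟨k, h1, h2, rfl⟩
  induction k, h1 using Nat.le_induction with
  | base => exact In.refl _ _
  | succ k hk ih =>
    exact (ih (by omega)).tail (ha.adj k (by omega)) (mem_arc hk (by omega))
      (mem_arc (by omega) h2)

theorem disjoint_arc {a : ℕ → V} {n : ℕ} (ha : IsPathFn G a n) {i j k l : ℕ} (hjk : j ≤ k)
    (hl : l ≤ n + 1) : Disjoint (Arc a i j) (Arc a k l) := by
  rw [Set.disjoint_left]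
  rintro v ⟨x, h1, h2, rfl⟩ ⟨y, h3, h4, h5⟩
  have := ha.inj y x (by omega) (by omega) h5
  omega

/-- An ear `a 0, …, a (m+1)` whose ends lie in `S`, are joined inside `S`, and whose inner
vertices avoid `S`. -/
structure IsEar (G : SimpleGraph V) (S : Set V) (a : ℕ → V) (m : ℕ) : Prop where
  path : IsPathFn G a (m + 1)
  first : a 0 ∈ S
  last : a (m + 1) ∈ S
  inner : ∀ i, 1 ≤ i → i ≤ m → a i ∉ S
  conn : In G S (a 0) (a (m + 1))

/-- The first arc of the cycle formed by an ear: it starts with a connected part of `S` that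
reaches a neighbour of the last vertex. -/
theorem IsEar.first_arc {S : Set V} {a : ℕ → V} {m : ℕ} (h : IsEar G S a m) {t : ℕ}
    (h1 : 1 ≤ t) (h2 : t ≤ m + 1) :
    ∃ A : Set V, Rooted G A ∧ A ⊆ S ∪ Arc a 1 (m + 1) ∧ (∀ s < t, a s ∈ A) ∧
      (∀ j, t ≤ j → Disjoint A (Arc a j (m + 2))) ∧ ∃ u ∈ A, G.Adj u (a (m + 1)) := by
  set R : Set V := {w | In G (S \ {a (m + 1)}) (a 0) w} with hR
  have hne : a 0 ≠ a (m + 1) := fun e => by
    have := h.path.inj 0 (m + 1) (by omega) le_rfl e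
    omega
  have hRsub : R ⊆ S \ {a (m + 1)} := fun w hw => In.mem hw ⟨h.first, hne⟩
  have hRq : ∃ u ∈ R, G.Adj u (a (m + 1)) := by
    have key : ∀ v, In G S (a 0) v → v ∈ R ∨ ∃ u ∈ R, G.Adj u (a (m + 1)) := by
      intro v hv
      induction hv with
      | refl => exact Or.inl (In.refl _ _)
      | @tail x y _ h2 ih =>
        rcases ih with ih | ih
        · by_cases hy : y = a (m + 1)
          · exact Or.inr ⟨x, ih, hy ▸ h2.1⟩
          · exact Or.inl (In.tail ih h2.1 (hRsub ih) ⟨h2.2.2, hy⟩)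
        · exact Or.inr ih
    rcases key _ h.conn with h' | h'
    · exact absurd rfl (hRsub h').2
    · exact h'
  have h0 : a 0 ∈ R := In.refl _ _
  refine ⟨R ∪ Arc a 1 t, ?_, ?_, ?_, ?_, ?_⟩
  · rcases Nat.eq_or_lt_of_le h1 with h' | h'
    · have : Arc a 1 t = ∅ := by
        ext v; simp only [Arc, Set.mem_ofPred_eq, Set.mem_empty_iff_false, iff_false]
        rintro ⟨k, k1, k2, -⟩; omega
      rw [this, Set.union_empty]
      exact rooted_reach _ _
    · exact (rooted_reach _ _).union (rooted_arc h.path h' (by omega)) h0 (mem_arc le_rfl h')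
        (h.path.adj 0 (by omega))
  · rintro v (hv | ⟨k, k1, k2, rfl⟩)
    · exact Or.inl (hRsub hv).1
    · exact Or.inr (mem_arc k1 (by omega))
  · intro s hs
    rcases Nat.eq_zero_or_pos s with rfl | hs0
    · exact Or.inl h0
    · exact Or.inr (mem_arc hs0 hs)
  · intro j hj
    rw [Set.disjoint_union_left]
    refine ⟨?_, disjoint_arc h.path hj le_rfl⟩
    rw [Set.disjoint_left]
    rintro v hv ⟨k, k1, k2, rfl⟩
    by_cases hk : k = m + 1
    · exact (hRsub hv).2 (by rw [hk]; rfl)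
    · exact h.inner k (by omega) (by omega) (hRsub hv).1
  · obtain ⟨u, hu, hu'⟩ := hRq
    exact ⟨u, Or.inl hu, hu'⟩

theorem arc_mono {a : ℕ → V} {i j k : ℕ} (h : j ≤ k) : Arc a i j ⊆ Arc a i k :=
  fun _ ⟨x, h1, h2, h3⟩ => ⟨x, h1, by omega, h3⟩

theorem IsEar.arc_sub {S : Set V} {a : ℕ → V} {m : ℕ} (h : IsEar G S a m) {i j : ℕ}
    (hj : j ≤ m + 2) : Arc a i j ⊆ S ∪ Arc a 1 (m + 1) := by
  rintro v ⟨k, k1, k2, rfl⟩
  by_cases h0 : k = 0
  · exact Or.inl (h0 ▸ h.first)
  by_cases h1 : k = m + 1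
  · exact Or.inl (h1 ▸ h.last)
  exact Or.inr (mem_arc (by omega) (by omega))

/-- No connected set outside the drawn part has three neighbours on an ear. -/
theorem IsEar.no_three (hK : ¬ HasK4Minor G) {S : Set V} {a : ℕ → V} {m : ℕ} (h : IsEar G S a m)
    {D : Set V} (hD : Rooted G D) (hdis : Disjoint (S ∪ Arc a 1 (m + 1)) D) {s t u : ℕ}
    (hst : s < t) (htu : t < u) (hu : u ≤ m + 1)
    (h1 : ∃ v ∈ D, G.Adj (a s) v) (h2 : ∃ v ∈ D, G.Adj (a t) v) (h3 : ∃ v ∈ D, G.Adj (a u) v) :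
    False := by
  obtain ⟨A, rA, sA, mA, dA, x, hx, hx'⟩ := h.first_arc (t := t) (by omega) (by omega)
  obtain ⟨t', rfl⟩ : ∃ t', t = t' + 1 := ⟨t - 1, by omega⟩
  obtain ⟨u', rfl⟩ : ∃ u', u = u' + 1 := ⟨u - 1, by omega⟩
  exact no_k4 hK rA (rooted_arc h.path htu (by omega))
    (rooted_arc h.path (i := u' + 1) (j := m + 2) (by omega) le_rfl) hD
    ((dA _ le_rfl).mono_right (arc_mono (by omega))) (dA _ (by omega)) (hdis.mono_left sA)
    (disjoint_arc h.path le_rfl le_rfl) (hdis.mono_left (h.arc_sub (by omega)))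
    (hdis.mono_left (h.arc_sub le_rfl))
    ⟨a t', mA _ (by omega), a (t' + 1), mem_arc le_rfl htu, h.path.adj _ (by omega)⟩
    ⟨x, hx, a (m + 1), mem_arc hu (by omega), hx'⟩
    ⟨a s, mA _ hst, h1⟩
    ⟨a u', mem_arc (by omega) (by omega), a (u' + 1), mem_arc le_rfl (by omega),
      h.path.adj _ (by omega)⟩
    ⟨a (t' + 1), mem_arc le_rfl htu, h2⟩
    ⟨a (u' + 1), mem_arc le_rfl (by omega), h3⟩

/-- Two disjoint connected sets outside the drawn part do not cross on an ear. -/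
theorem IsEar.no_cross (hK : ¬ HasK4Minor G) {S : Set V} {a : ℕ → V} {m : ℕ} (h : IsEar G S a m)
    {D E : Set V} (hD : Rooted G D) (hE : Rooted G E)
    (hdD : Disjoint (S ∪ Arc a 1 (m + 1)) D) (hdE : Disjoint (S ∪ Arc a 1 (m + 1)) E)
    (hDE : Disjoint D E) {s t u w : ℕ}
    (hst : s < t) (htu : t < u) (huw : u < w) (hw : w ≤ m + 1)
    (h1 : ∃ v ∈ D, G.Adj (a s) v) (h2 : ∃ v ∈ E, G.Adj (a t) v) (h3 : ∃ v ∈ D, G.Adj (a u) v)
    (h4 : ∃ v ∈ E, G.Adj (a w) v) : False := by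
  obtain ⟨A, rA, sA, mA, dA, x, hx, hx'⟩ := h.first_arc (t := t) (by omega) (by omega)
  obtain ⟨t', rfl⟩ : ∃ t', t = t' + 1 := ⟨t - 1, by omega⟩
  obtain ⟨u', rfl⟩ : ∃ u', u = u' + 1 := ⟨u - 1, by omega⟩
  obtain ⟨w', rfl⟩ : ∃ w', w = w' + 1 := ⟨w - 1, by omega⟩
  obtain ⟨v1, hv1, e1⟩ := h1
  obtain ⟨v2, hv2, e2⟩ := h2
  obtain ⟨v3, hv3, e3⟩ := h3
  obtain ⟨v4, hv4, e4⟩ := h4
  refine no_k4 hK (rA.union hD (mA s hst) hv1 e1)
    ((rooted_arc h.path htu (by omega)).union hE (mem_arc le_rfl htu) hv2 e2)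
    (rooted_arc h.path huw (by omega))
    (rooted_arc h.path (i := w' + 1) (j := m + 2) (by omega) le_rfl) ?_ ?_ ?_ ?_ ?_
    (disjoint_arc h.path le_rfl le_rfl)
    ⟨a t', Or.inl (mA _ (by omega)), a (t' + 1), Or.inl (mem_arc le_rfl htu),
      h.path.adj _ (by omega)⟩
    ⟨v3, Or.inr hv3, a (u' + 1), mem_arc le_rfl huw, e3.symm⟩
    ⟨x, Or.inl hx, a (m + 1), mem_arc hw (by omega), hx'⟩
    ⟨a u', Or.inl (mem_arc (by omega) (by omega)), a (u' + 1), mem_arc le_rfl (by omega),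
      h.path.adj _ (by omega)⟩
    ⟨v4, Or.inr hv4, a (w' + 1), mem_arc le_rfl (by omega), e4.symm⟩
    ⟨a w', mem_arc (by omega) (by omega), a (w' + 1), mem_arc le_rfl (by omega),
      h.path.adj _ (by omega)⟩
  · rw [Set.disjoint_union_left, Set.disjoint_union_right, Set.disjoint_union_right]
    exact ⟨⟨(dA _ le_rfl).mono_right (arc_mono (by omega)), hdE.mono_left sA⟩,
      (hdD.mono_left (h.arc_sub (by omega))).symm, hDE⟩
  · rw [Set.disjoint_union_left]
    exact ⟨(dA _ (by omega)).mono_right (arc_mono (by omega)),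
      (hdD.mono_left (h.arc_sub (by omega))).symm⟩
  · rw [Set.disjoint_union_left]
    exact ⟨dA _ (by omega), (hdD.mono_left (h.arc_sub le_rfl)).symm⟩
  · rw [Set.disjoint_union_left]
    exact ⟨disjoint_arc h.path le_rfl (by omega), (hdE.mono_left (h.arc_sub (by omega))).symm⟩
  · rw [Set.disjoint_union_left]
    exact ⟨disjoint_arc h.path (by omega) le_rfl, (hdE.mono_left (h.arc_sub le_rfl)).symm⟩

end Pool.Agent.Work.MP_c0f83f_co
end

-- merged part: Pool.Agent.Work.MP_c0f83f_co.Inv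
section
/-!
The invariant of the incremental drawing, and the two general extension lemmas.
-/

set_option autoImplicit false

namespace Pool.Agent.Work.MP_c0f83f_co

variable {V : Type} {G : SimpleGraph V}

/-- A drawn vertex with an undrawn neighbour. -/
def Opn (G : SimpleGraph V) (S : Set V) (v : V) : Prop := v ∈ S ∧ ∃ x, x ∉ S ∧ G.Adj v x

/-- `p` is a drawn neighbour of the undrawn component of `x`. -/
def Att (G : SimpleGraph V) (S : Set V) (x p : V) : Prop :=
  p ∈ S ∧ ∃ y, In G Sᶜ x y ∧ G.Adj y p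

theorem Att.opn {S : Set V} {x p : V} (hx : x ∉ S) (h : Att G S x p) : Opn G S p := by
  obtain ⟨hp, y, hy, hyp⟩ := h
  exact ⟨hp, y, hy.mem hx, hyp.symm⟩

theorem Opn.att {S : Set V} {p : V} (h : Opn G S p) : ∃ x, x ∉ S ∧ Att G S x p := by
  obtain ⟨hp, x, hx, hpx⟩ := h
  exact ⟨x, hx, hp, x, In.refl _ _, hpx.symm⟩

/-- The two rectangles share a vertical segment. -/
def Touch (l r b t : V → ℝ) (u v : V) : Prop :=
  (r u = l v ∨ r v = l u) ∧ b u < t v ∧ b v < t u

/-- The two rectangles are disjoint. -/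
def Sep (l r b t : V → ℝ) (u v : V) : Prop :=
  r u < l v ∨ r v < l u ∨ t u < b v ∨ t v < b u

theorem Touch.symm {l r b t : V → ℝ} {u v : V} (h : Touch l r b t u v) : Touch l r b t v u :=
  ⟨h.1.symm, h.2.2, h.2.1⟩

theorem Sep.symm {l r b t : V → ℝ} {u v : V} (h : Sep l r b t u v) : Sep l r b t v u := by
  unfold Sep at h ⊢; tauto

/-- The geometric part of the invariant: a drawing of the subgraph induced on `S`, with a free
port `[lo v, hi v]` on the right side of each open vertex. -/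
structure Geo (G : SimpleGraph V) (S : Set V) (l r b t lo hi : V → ℝ) : Prop where
  box : ∀ v ∈ S, l v < r v ∧ b v < t v
  adj : ∀ u ∈ S, ∀ v ∈ S, G.Adj u v → Touch l r b t u v
  nadj : ∀ u ∈ S, ∀ v ∈ S, u ≠ v → ¬ G.Adj u v → Sep l r b t u v
  psub : ∀ v, Opn G S v → b v ≤ lo v ∧ lo v < hi v ∧ hi v ≤ t v
  pfree : ∀ v, Opn G S v → ∀ w ∈ S, w ≠ v → r w < r v ∨ t w < lo v ∨ hi v < b w
  pdisj : ∀ u v, Opn G S u → Opn G S v → u ≠ v → hi u < lo v ∨ hi v < lo u

/-- The combinatorial part of the invariant. -/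
structure Comb (G : SimpleGraph V) (S : Set V) (lo : V → ℝ) : Prop where
  nc : ∀ x y, x ∉ S → y ∉ S → ∀ u1 u2 w1, Att G S x u1 → Att G S x u2 → Att G S y w1 →
    lo u1 < lo w1 → lo w1 < lo u2 →
    ¬ In G Sᶜ x y ∧ ∀ w2, Att G S y w2 → lo u1 ≤ lo w2 ∧ lo w2 ≤ lo u2
  long : ∀ p ∈ S, ∀ q ∈ S, ∀ x y, x ∉ S → y ∉ S → G.Adj p x → (x = y ∨ G.Adj x y) →
    G.Adj y q → p = q
  conn : ∀ x, x ∉ S → ∀ p q, Att G S x p → Att G S x q → In G S p q

theorem opn_union {S P : Set V} {v : V} (h : Opn G (S ∪ P) v) : Opn G S v ∨ v ∈ P := by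
  obtain ⟨hv | hv, x, hx, hvx⟩ := h
  · exact Or.inl ⟨hv, x, fun h => hx (Or.inl h), hvx⟩
  · exact Or.inr hv

theorem Geo.extend {S P : Set V} {l r b t lo hi l' r' b' t' lo' hi' : V → ℝ}
    (h : Geo G S l r b t lo hi)
    (e : ∀ v ∈ S, l' v = l v ∧ r' v = r v ∧ b' v = b v ∧ t' v = t v)
    (hport : ∀ v, Opn G S v → lo v ≤ lo' v ∧ lo' v < hi' v ∧ hi' v ≤ hi v)
    (nbox : ∀ v ∈ P, l' v < r' v ∧ b' v < t' v ∧ b' v ≤ lo' v ∧ lo' v < hi' v ∧ hi' v ≤ t' v)
    (nadj : ∀ u ∈ P, ∀ v ∈ S ∪ P, G.Adj u v → Touch l' r' b' t' u v)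
    (nnadj : ∀ u ∈ P, ∀ v ∈ S ∪ P, u ≠ v → ¬ G.Adj u v → Sep l' r' b' t' u v)
    (nfree1 : ∀ v ∈ P, ∀ w ∈ S ∪ P, w ≠ v → r' w < r' v ∨ t' w < lo' v ∨ hi' v < b' w)
    (nfree2 : ∀ v, Opn G S v → ∀ w ∈ P, t' w < lo' v ∨ hi' v < b' w)
    (ndisj : ∀ u ∈ P, ∀ v, (Opn G S v ∨ v ∈ P) → u ≠ v → hi' u < lo' v ∨ hi' v < lo' u) :
    Geo G (S ∪ P) l' r' b' t' lo' hi' := by
  refine ⟨?_, ?_, ?_, ?_, ?_, ?_⟩
  · rintro v (hv | hv)
    · obtain ⟨e1, e2, e3, e4⟩ := e v hv
      rw [e1, e2, e3, e4]; exact h.box v hv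
    · exact ⟨(nbox v hv).1, (nbox v hv).2.1⟩
  · rintro u (hu | hu) v hv huv
    · rcases hv with hv | hv
      · obtain ⟨e1, e2, e3, e4⟩ := e u hu
        obtain ⟨f1, f2, f3, f4⟩ := e v hv
        have := h.adj u hu v hv huv
        unfold Touch at this ⊢
        rwa [e1, e2, e3, e4, f1, f2, f3, f4]
      · exact (nadj v hv u (Or.inl hu) huv.symm).symm
    · exact nadj u hu v hv huv
  · rintro u (hu | hu) v hv hne huv
    · rcases hv with hv | hv
      · obtain ⟨e1, e2, e3, e4⟩ := e u hu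
        obtain ⟨f1, f2, f3, f4⟩ := e v hv
        have := h.nadj u hu v hv hne huv
        unfold Sep at this ⊢
        rwa [e1, e2, e3, e4, f1, f2, f3, f4]
      · exact (nnadj v hv u (Or.inl hu) hne.symm (fun a => huv a.symm)).symm
    · exact nnadj u hu v hv hne huv
  · intro v hv
    rcases opn_union hv with hv | hv
    · obtain ⟨-, -, e3, e4⟩ := e v hv.1
      obtain ⟨a1, a2, a3⟩ := h.psub v hv
      obtain ⟨c1, c2, c3⟩ := hport v hv
      rw [e3, e4]
      exact ⟨by linarith, c2, by linarith⟩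
    · exact (nbox v hv).2.2
  · intro v hv w hw hne
    rcases opn_union hv with hv | hv
    · rcases hw with hw | hw
      · obtain ⟨-, e2, -, -⟩ := e v hv.1
        obtain ⟨-, f2, f3, f4⟩ := e w hw
        obtain ⟨c1, c2, c3⟩ := hport v hv
        rw [e2, f2, f3, f4]
        rcases h.pfree v hv w hw hne with a | a | a
        · exact Or.inl a
        · exact Or.inr (Or.inl (by linarith))
        · exact Or.inr (Or.inr (by linarith))
      · exact Or.inr (nfree2 v hv w hw)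
    · exact nfree1 v hv w hw hne
  · intro u v hu hv hne
    rcases opn_union hu with hu | hu
    · rcases opn_union hv with hv | hv
      · obtain ⟨c1, c2, c3⟩ := hport u hu
        obtain ⟨d1, d2, d3⟩ := hport v hv
        rcases h.pdisj u v hu hv hne with a | a
        · exact Or.inl (by linarith)
        · exact Or.inr (by linarith)
      · exact (ndisj v hv u (Or.inl hu) hne.symm).symm
    · exact ndisj u hu v (opn_union hv) hne

/-- Shrinking ports preserves their order. -/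
theorem Geo.order {S : Set V} {l r b t lo hi lo' hi' : V → ℝ} (h : Geo G S l r b t lo hi)
    (hport : ∀ v, Opn G S v → lo v ≤ lo' v ∧ lo' v < hi' v ∧ hi' v ≤ hi v)
    {u v : V} (hu : Opn G S u) (hv : Opn G S v) : lo u < lo v ↔ lo' u < lo' v := by
  by_cases hne : u = v
  · subst hne; simp
  obtain ⟨c1, c2, c3⟩ := hport u hu
  obtain ⟨d1, d2, d3⟩ := hport v hv
  rcases h.pdisj u v hu hv hne with a | a
  · constructor <;> intro _ <;> linarith only [c2, c3, d1, a, c1]
  · constructor <;> intro _ <;> linarith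

theorem att_old {S P : Set V} {x0 : V} (hx0 : x0 ∉ S) (hP : ∀ v ∈ P, In G Sᶜ x0 v) {x u : V}
    (hx : x ∉ S ∪ P) (hxD : ¬ In G Sᶜ x0 x) (h : Att G (S ∪ P) x u) : Att G S x u := by
  obtain ⟨hu, y, hy, hyu⟩ := h
  have hsub : (S ∪ P)ᶜ ⊆ Sᶜ := Set.compl_subset_compl.mpr Set.subset_union_left
  have hy' := hy.mono hsub
  rcases hu with hu | hu
  · exact ⟨hu, y, hy', hyu⟩
  · exfalso
    apply hxD
    exact ((hP u hu).tail hyu.symm ((hP u hu).mem hx0) (hy'.mem (hsub hx))).trans hy'.symm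

theorem att_new {S P : Set V} {x0 x u : V} (hxD : In G Sᶜ x0 x) (h : Att G (S ∪ P) x u) :
    Att G S x0 u ∨ u ∈ P := by
  obtain ⟨hu, y, hy, hyu⟩ := h
  have hsub : (S ∪ P)ᶜ ⊆ Sᶜ := Set.compl_subset_compl.mpr Set.subset_union_left
  rcases hu with hu | hu
  · exact Or.inl ⟨hu, y, hxD.trans (hy.mono hsub), hyu⟩
  · exact Or.inr hu

theorem Comb.extend {S P : Set V} {lo lo' : V → ℝ} (h : Comb G S lo) {x0 : V} (hx0 : x0 ∉ S)
    (hP : ∀ v ∈ P, In G Sᶜ x0 v)
    (h1 : ∀ u v, Opn G S u → Opn G S v → (lo u < lo v ↔ lo' u < lo' v))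
    (h2 : ∀ u1 u2, (Att G S x0 u1 ∨ u1 ∈ P) → (Att G S x0 u2 ∨ u2 ∈ P) → ∀ w, Opn G S w →
      lo' u1 < lo' w → lo' w < lo' u2 → False)
    (inc : ∀ x y, x ∉ S ∪ P → y ∉ S ∪ P → In G Sᶜ x0 x → In G Sᶜ x0 y → ∀ u1 u2 w1,
      Att G (S ∪ P) x u1 → Att G (S ∪ P) x u2 → Att G (S ∪ P) y w1 →
      lo' u1 < lo' w1 → lo' w1 < lo' u2 →
      ¬ In G (S ∪ P)ᶜ x y ∧ ∀ w2, Att G (S ∪ P) y w2 → lo' u1 ≤ lo' w2 ∧ lo' w2 ≤ lo' u2)
    (ilong : ∀ p ∈ S ∪ P, ∀ q ∈ S ∪ P, ∀ x y, x ∉ S ∪ P → y ∉ S ∪ P → In G Sᶜ x0 x →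
      G.Adj p x → (x = y ∨ G.Adj x y) → G.Adj y q → p = q)
    (iconn : ∀ p q, (Att G S x0 p ∨ p ∈ P) → (Att G S x0 q ∨ q ∈ P) → In G (S ∪ P) p q) :
    Comb G (S ∪ P) lo' := by
  have hsub : (S ∪ P)ᶜ ⊆ Sᶜ := Set.compl_subset_compl.mpr Set.subset_union_left
  refine ⟨?_, ?_, ?_⟩
  · intro x y hx hy u1 u2 w1 a1 a2 a3 k1 k2
    by_cases hxD : In G Sᶜ x0 x <;> by_cases hyD : In G Sᶜ x0 y
    · exact inc x y hx hy hxD hyD u1 u2 w1 a1 a2 a3 k1 k2
    · exact (h2 u1 u2 (att_new hxD a1) (att_new hxD a2) w1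
        ((att_old hx0 hP hy hyD a3).opn (hsub hy)) k1 k2).elim
    · refine ⟨fun hxy => hxD (hyD.trans (hxy.mono hsub).symm), ?_⟩
      intro w2 a4
      have o1 := (att_old hx0 hP hx hxD a1).opn (hsub hx)
      have o2 := (att_old hx0 hP hx hxD a2).opn (hsub hx)
      constructor
      · by_contra hc
        exact h2 w2 w1 (att_new hyD a4) (att_new hyD a3) u1 o1 (not_le.mp hc) k1
      · by_contra hc
        exact h2 w1 w2 (att_new hyD a3) (att_new hyD a4) u2 o2 k2 (not_le.mp hc)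
    · have b1 := att_old hx0 hP hx hxD a1
      have b2 := att_old hx0 hP hx hxD a2
      have b3 := att_old hx0 hP hy hyD a3
      have o1 := b1.opn (hsub hx)
      have o2 := b2.opn (hsub hx)
      have o3 := b3.opn (hsub hy)
      obtain ⟨c1, c2⟩ := h.nc x y (hsub hx) (hsub hy) u1 u2 w1 b1 b2 b3
        ((h1 _ _ o1 o3).mpr k1) ((h1 _ _ o3 o2).mpr k2)
      refine ⟨fun hxy => c1 (hxy.mono hsub), ?_⟩
      intro w2 a4
      have b4 := att_old hx0 hP hy hyD a4
      have o4 := b4.opn (hsub hy)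
      obtain ⟨d1, d2⟩ := c2 w2 b4
      exact ⟨not_lt.mp fun hc => not_lt.mpr d1 ((h1 _ _ o4 o1).mpr hc),
        not_lt.mp fun hc => not_lt.mpr d2 ((h1 _ _ o2 o4).mpr hc)⟩
  · intro p hp q hq x y hx hy e1 e2 e3
    by_cases hxD : In G Sᶜ x0 x
    · exact ilong p hp q hq x y hx hy hxD e1 e2 e3
    · have hxy : In G (S ∪ P)ᶜ x y := by
        rcases e2 with rfl | e2
        · exact In.refl _ _
        · exact In.single e2 hx hy
      have b1 := att_old hx0 hP hx hxD ⟨hp, x, In.refl _ _, e1.symm⟩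
      have b2 := att_old hx0 hP hx hxD ⟨hq, y, hxy, e3⟩
      exact h.long p b1.1 q b2.1 x y (hsub hx) (hsub hy) e1 e2 e3
  · intro x hx p q a1 a2
    by_cases hxD : In G Sᶜ x0 x
    · exact iconn p q (att_new hxD a1) (att_new hxD a2)
    · exact (h.conn x (hsub hx) p q (att_old hx0 hP hx hxD a1)
        (att_old hx0 hP hx hxD a2)).mono Set.subset_union_left

/-- The full invariant. -/
def Good (G : SimpleGraph V) (S : Set V) : Prop :=
  ∃ l r b t lo hi : V → ℝ, Geo G S l r b t lo hi ∧ Comb G S lo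

theorem good_empty : Good G ∅ := by
  refine ⟨0, 0, 0, 0, 0, 0, ⟨?_, ?_, ?_, ?_, ?_, ?_⟩, ⟨?_, ?_, ?_⟩⟩
  · intro v hv; exact hv.elim
  · intro v hv; exact hv.elim
  · intro v hv; exact hv.elim
  · intro v hv; exact hv.1.elim
  · intro v hv; exact hv.1.elim
  · intro u v hv; exact hv.1.elim
  · intro x y _ _ u1 _ _ h; exact h.1.elim
  · intro v hv; exact hv.elim
  · intro x _ p _ h; exact h.1.elim

/-- A new root: a component without attachments. -/
theorem step_root [Finite V] {S : Set V} (h : Good G S) {a : V} (ha : a ∉ S)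
    (hno : ∀ p, ¬ Att G S a p) : Good G (S ∪ {a}) := by
  classical
  obtain ⟨l, r, b, t, lo, hi, hG, hC⟩ := h
  obtain ⟨M, hM⟩ := (Set.finite_range t).bddAbove
  have hM' : ∀ v, t v ≤ M := fun v => hM ⟨v, rfl⟩
  have ne : ∀ v ∈ S, v ≠ a := fun v hv e => ha (e ▸ hv)
  have hport : ∀ v, Opn G S v → lo v ≤ Function.update lo a (M + 1) v ∧
      Function.update lo a (M + 1) v < Function.update hi a (M + 2) v ∧
      Function.update hi a (M + 2) v ≤ hi v := by
    intro v hv
    simp only [Function.update_of_ne (ne v hv.1)]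
    exact ⟨le_rfl, (hG.psub v hv).2.1, le_rfl⟩
  refine ⟨Function.update l a 0, Function.update r a 1, Function.update b a (M + 1),
    Function.update t a (M + 2), Function.update lo a (M + 1), Function.update hi a (M + 2),
    hG.extend ?_ hport ?_ ?_ ?_ ?_ ?_ ?_, hC.extend (x0 := a) ha ?_ ?_ ?_ ?_ ?_ ?_⟩
  · intro v hv
    simp only [Function.update_of_ne (ne v hv), and_self]
  · rintro v rfl
    simp only [Function.update_self]
    refine ⟨by norm_num, by linarith, le_rfl, by linarith, le_rfl⟩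
  · rintro u rfl v (hv | rfl) huv
    · exact (hno v ⟨hv, u, In.refl _ _, huv⟩).elim
    · exact (huv.ne rfl).elim
  · rintro u rfl v (hv | rfl) hne _
    · unfold Sep
      simp only [Function.update_self, Function.update_of_ne (ne v hv)]
      exact Or.inr (Or.inr (Or.inr (by linarith [hM' v])))
    · exact (hne rfl).elim
  · rintro u rfl v (hv | rfl) hne
    · simp only [Function.update_self, Function.update_of_ne (ne v hv)]
      exact Or.inr (Or.inl (by linarith [hM' v]))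
    · exact (hne rfl).elim
  · rintro v hv w rfl
    simp only [Function.update_self, Function.update_of_ne (ne v hv.1)]
    exact Or.inr (by linarith [hM' v, (hG.psub v hv).2.2])
  · rintro u rfl v (hv | rfl) hne
    · simp only [Function.update_self, Function.update_of_ne (ne v hv.1)]
      exact Or.inr (by linarith [hM' v, (hG.psub v hv).2.2])
    · exact (hne rfl).elim
  · rintro v rfl; exact In.refl _ _
  · intro u v hu hv; exact hG.order hport hu hv
  · rintro u1 u2 (h1 | rfl) (h2 | rfl) w _ k1 k2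
    · exact hno _ h1
    · exact hno _ h1
    · exact hno _ h2
    · linarith
  · intro x y _ _ hx _ u1 u2 w1 a1 a2 _ k1 k2
    rcases att_new hx a1 with h1 | rfl
    · exact (hno _ h1).elim
    rcases att_new hx a2 with h2 | rfl
    · exact (hno _ h2).elim
    linarith
  · intro p hp q hq x y hx hy hxD e1 e2 e3
    have hxy : In G (S ∪ {a})ᶜ x y := by
      rcases e2 with rfl | e2
      · exact In.refl _ _
      · exact In.single e2 hx hy
    rcases att_new hxD (⟨hp, x, In.refl _ _, e1.symm⟩ : Att G (S ∪ {a}) x p) with h1 | rfl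
    · exact (hno _ h1).elim
    rcases att_new hxD (⟨hq, y, hxy, e3⟩ : Att G (S ∪ {p}) x q) with h2 | rfl
    · exact (hno _ h2).elim
    rfl
  · rintro p q (h1 | rfl) (h2 | rfl)
    · exact (hno _ h1).elim
    · exact (hno _ h1).elim
    · exact (hno _ h2).elim
    · exact In.refl _ _

/-- A pendant vertex: a component with exactly one attachment. -/
theorem step_pendant [Finite V] (hg : 7 ≤ G.egirth) {S : Set V} (h : Good G S) {a p : V}
    (ha : a ∉ S) (hp : p ∈ S) (hap : G.Adj a p) (hone : ∀ q, Att G S a q → q = p) :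
    Good G (S ∪ {a}) := by
  classical
  obtain ⟨l, r, b, t, lo, hi, hG, hC⟩ := h
  obtain ⟨M, hM⟩ := (Set.finite_range r).bddAbove
  have hM' : ∀ v, r v ≤ M := fun v => hM ⟨v, rfl⟩
  have ne : ∀ v ∈ S, v ≠ a := fun v hv e => ha (e ▸ hv)
  have op : Opn G S p := ⟨hp, a, ha, hap.symm⟩
  obtain ⟨p1, p2, p3⟩ := hG.psub p op
  set lo' := Function.update (Function.update lo p ((lo p + 2 * hi p) / 3)) a (lo p) with hlo'
  set hi' := Function.update hi a ((2 * lo p + hi p) / 3) with hhi'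
  have lo_a : lo' a = lo p := by simp [hlo']
  have hi_a : hi' a = (2 * lo p + hi p) / 3 := by simp [hhi']
  have lo_p : lo' p = (lo p + 2 * hi p) / 3 := by simp [hlo', ne p hp]
  have hi_S : ∀ v ∈ S, hi' v = hi v := fun v hv => by simp [hhi', ne v hv]
  have lo_S : ∀ v ∈ S, v ≠ p → lo' v = lo v := fun v hv h => by simp [hlo', ne v hv, h]
  have hport : ∀ v, Opn G S v → lo v ≤ lo' v ∧ lo' v < hi' v ∧ hi' v ≤ hi v := by
    intro v hv
    rw [hi_S v hv.1]
    by_cases hvp : v = p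
    · subst hvp
      rw [lo_p]
      exact ⟨by linarith only [p2], by linarith only [p2], le_rfl⟩
    · rw [lo_S v hv.1 hvp]
      exact ⟨le_rfl, (hG.psub v hv).2.1, le_rfl⟩
  have hsep : ∀ v, Opn G S v → (2 * lo p + hi p) / 3 < lo' v ∨ hi' v < lo p := by
    intro v hv
    by_cases hvp : v = p
    · subst hvp
      rw [lo_p]; left; linarith only [p2]
    · rw [lo_S v hv.1 hvp, hi_S v hv.1]
      rcases hG.pdisj v p hv op hvp with c | c
      · exact Or.inr c
      · left; linarith only [p2, c]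
  have hT : ∀ u, (Att G S a u ∨ u ∈ ({a} : Set V)) → u = p ∨ u = a := by
    rintro u (h | h)
    · exact Or.inl (hone u h)
    · exact Or.inr h
  refine ⟨Function.update l a (r p), Function.update r a (M + 1), Function.update b a (lo p),
    Function.update t a ((2 * lo p + hi p) / 3), lo', hi',
    hG.extend ?_ hport ?_ ?_ ?_ ?_ ?_ ?_, hC.extend (x0 := a) ha ?_ ?_ ?_ ?_ ?_ ?_⟩
  · intro v hv
    simp only [Function.update_of_ne (ne v hv), and_self]
  · rintro v rfl
    simp only [Function.update_self, lo_a, hi_a]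
    exact ⟨by linarith only [hM', hM' p], by linarith only [p2], le_rfl, by linarith only [p2], le_rfl⟩
  · rintro u rfl v (hv | rfl) huv
    · obtain rfl := hone v ⟨hv, u, In.refl _ _, huv⟩
      unfold Touch
      simp only [Function.update_self, Function.update_of_ne (ne v hv)]
      exact ⟨Or.inr trivial, by linarith only [p2, p3], by linarith only [p1, p2]⟩
    · exact (huv.ne rfl).elim
  · rintro u rfl v (hv | rfl) hne huv
    · unfold Sep
      simp only [Function.update_self, Function.update_of_ne (ne v hv)]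
      rcases hG.pfree p op v hv (fun e => huv (e ▸ hap)) with c | c | c
      · exact Or.inr (Or.inl c)
      · exact Or.inr (Or.inr (Or.inr c))
      · exact Or.inr (Or.inr (Or.inl (by linarith only [p2, c])))
    · exact (hne rfl).elim
  · rintro u rfl v (hv | rfl) hne
    · simp only [Function.update_self, Function.update_of_ne (ne v hv)]
      exact Or.inl (by linarith only [hM', hM' v])
    · exact (hne rfl).elim
  · rintro v hv w rfl
    simp only [Function.update_self]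
    exact hsep v hv
  · rintro u rfl v (hv | rfl) hne
    · rw [lo_a, hi_a]; exact hsep v hv
    · exact (hne rfl).elim
  · rintro v rfl; exact In.refl _ _
  · intro u v hu hv; exact hG.order hport hu hv
  · intro u1 u2 h1 h2 w hw k1 k2
    have b1 : lo p ≤ lo' u1 := by
      rcases hT u1 h1 with rfl | rfl
      · rw [lo_p]; linarith only [p2]
      · rw [lo_a]
    have b2 : lo' u2 ≤ (lo p + 2 * hi p) / 3 := by
      rcases hT u2 h2 with rfl | rfl
      · rw [lo_p]
      · rw [lo_a]; linarith only [lo_a, k1, k2, b1]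
    by_cases hwp : w = p
    · subst hwp; rw [lo_p] at k2; linarith only [k2, b2]
    · rw [lo_S w hw.1 hwp] at k1 k2
      have := (hG.psub w hw).2.1
      rcases hG.pdisj w p hw op hwp with c | c <;> linarith only [k1, b1, this, c, k2, b2]
  · intro x y _ _ hx hy u1 u2 w1 a1 a2 a3 k1 k2
    exfalso
    rcases hT _ (att_new hx a1) with rfl | rfl <;> rcases hT _ (att_new hx a2) with e | e <;>
      rcases hT _ (att_new hy a3) with e' | e' <;> rw [e] at k2 <;> rw [e'] at k1 k2 <;> linarith only [k1, p2, lo_a, lo_p, k2]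
  · intro p' hp' q hq x y hx hy hxD e1 e2 e3
    have hxy : In G (S ∪ {a})ᶜ x y := by
      rcases e2 with rfl | e2
      · exact In.refl _ _
      · exact In.single e2 hx hy
    have n1 : p ≠ x := fun e => hx (Or.inl (e ▸ hp))
    have n2 : p ≠ y := fun e => hy (Or.inl (e ▸ hp))
    have n3 : a ≠ x := fun e => hx (Or.inr e.symm)
    have n4 : a ≠ y := fun e => hy (Or.inr e.symm)
    rcases hT _ (att_new hxD (⟨hp', x, In.refl _ _, e1.symm⟩ : Att G (S ∪ {a}) x p')) with
      f1 | f1 <;>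
    rcases hT _ (att_new hxD (⟨hq, y, hxy, e3⟩ : Att G (S ∪ {a}) x q)) with f2 | f2
    · rw [f1, f2]
    · rw [f1] at e1; rw [f2] at e3
      exfalso
      rcases e2 with rfl | e2
      · exact no_c3 hg e1 e3 hap
      · exact no_c4 hg e1 e2 e3 hap n2 n3.symm
    · rw [f1] at e1; rw [f2] at e3
      exfalso
      rcases e2 with rfl | e2
      · exact no_c3 hg e1 e3 hap.symm
      · exact no_c4 hg e1 e2 e3 hap.symm n4 n1.symm
    · rw [f1, f2]
  · intro p' q h1 h2
    have hpa : In G (S ∪ {a}) p a := In.single hap.symm (Or.inl hp) (Or.inr rfl)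
    rcases hT _ h1 with rfl | rfl <;> rcases hT _ h2 with rfl | rfl
    · exact In.refl _ _
    · exact hpa
    · exact hpa.symm
    · exact In.refl _ _

end Pool.Agent.Work.MP_c0f83f_co
end

-- merged part: Pool.Agent.Work.MP_c0f83f_co.Coords
section
/-!
Coordinates of the rectangles of one ear.
-/

set_option autoImplicit false

namespace Pool.Agent.Work.MP_c0f83f_co

/-- The numerical facts needed about the rectangles of an ear with `m` inner vertices. -/
structure EarCoords (rp rq M lp hp lq hq : ℝ) (m : ℕ) (L R B T Lo Hi : ℕ → ℝ)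
    (lp' hq' : ℝ) : Prop where
  f0 : lp < lp' ∧ lp' < hp ∧ lq < hq' ∧ hq' < hq
  box : ∀ i, 1 ≤ i → i ≤ m → L i < R i ∧ B i < T i ∧ B i ≤ Lo i ∧ Lo i < Hi i ∧ Hi i ≤ T i
  range : ∀ i, 1 ≤ i → i ≤ m → hq' < B i ∧ T i < lp' ∧ M < R i
  cons : ∀ i, 1 ≤ i → i < m →
    (R i = L (i + 1) ∨ R (i + 1) = L i) ∧ B i < T (i + 1) ∧ B (i + 1) < T i
  far : ∀ i k, 1 ≤ i → i + 2 ≤ k → k ≤ m → R k < L i ∨ T k < B i
  one : L 1 = rp ∧ lp ≤ B 1
  last : L m = rq ∧ T m ≤ hq
  mid : ∀ i, 2 ≤ i → i < m → M < L i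
  free : ∀ i k, 1 ≤ i → i ≤ m → 1 ≤ k → k ≤ m → k ≠ i → R k < R i ∨ T k < Lo i ∨ Hi i < B k
  ord : ∀ i k, 1 ≤ i → i < k → k ≤ m → Hi k < Lo i

theorem exists_earCoords (rp rq M lp hp lq hq : ℝ) (m : ℕ) (hm : 3 ≤ m) (h1 : rp ≤ M)
    (h2 : rq ≤ M) (h3 : lp < hp) (h4 : lq < hq) (h5 : hq < lp) :
    ∃ (L R B T Lo Hi : ℕ → ℝ) (lp' hq' : ℝ),
      EarCoords rp rq M lp hp lq hq m L R B T Lo Hi lp' hq' := by
  have hm' : (3 : ℝ) ≤ m := by exact_mod_cast hm
  obtain ⟨h, hh, hh0⟩ : ∃ h : ℝ, hq = lq + (m + 1) * h ∧ 0 < h :=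
    ⟨(hq - lq) / (m + 1), by field_simp; ring, div_pos (by linarith only [h4]) (by linarith)⟩
  obtain ⟨g, hg, hg0⟩ : ∃ g : ℝ, hp = lp + 8 * g ∧ 0 < g :=
    ⟨(hp - lp) / 8, by ring, by linarith⟩
  let c : ℕ → ℝ := fun i => hq - (i - 2) * h
  have c1 : ∀ i, 3 ≤ i → c i ≤ hq - h := by
    intro i hi
    have : (3 : ℝ) ≤ i := by exact_mod_cast hi
    simp only [c]; (refine le_of_not_gt fun h_nl => ?_; linarith only [h_nl, hh, h4, this, mul_nonneg_of_nonpos_of_nonpos (Mathlib.Tactic.Linarith.sub_nonpos_of_le (Mathlib.Tactic.Linarith.natCast_nonneg ℝ m)) (le_of_lt (Mathlib.Tactic.Linarith.sub_neg_of_lt h_nl)), Mathlib.Tactic.Linarith.mul_zero_eq (Mathlib.Tactic.Linarith.sub_nonpos_of_le (Mathlib.Tactic.Linarith.natCast_nonneg ℝ i)) (sub_eq_zero_of_eq hh), mul_nonneg_of_nonpos_of_nonpos (le_of_lt (Mathlib.Tactic.Linarith.sub_neg_of_lt h4)) (Mathlib.Tactic.Linarith.sub_nonpos_of_le this)])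
  have c2 : ∀ i, i ≤ m → lq + 3 * h ≤ c i := by
    intro i hi
    have : (i : ℝ) ≤ m := by exact_mod_cast hi
    simp only [c]; (refine le_of_not_gt fun h_nl => ?_; linarith only [h_nl, hh, h4, this, mul_nonneg_of_nonpos_of_nonpos (Mathlib.Tactic.Linarith.sub_nonpos_of_le (Mathlib.Tactic.Linarith.natCast_nonneg ℝ m)) (le_of_lt (Mathlib.Tactic.Linarith.sub_neg_of_lt h_nl)), Mathlib.Tactic.Linarith.mul_zero_eq (Mathlib.Tactic.Linarith.sub_nonpos_of_le (Mathlib.Tactic.Linarith.natCast_nonneg ℝ i)) (sub_eq_zero_of_eq hh), mul_nonneg_of_nonpos_of_nonpos (le_of_lt (Mathlib.Tactic.Linarith.sub_neg_of_lt h4)) (Mathlib.Tactic.Linarith.sub_nonpos_of_le this)])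
  have c3 : ∀ i k, i < k → c k + h ≤ c i := by
    intro i k hik
    have : (i : ℝ) + 1 ≤ k := by exact_mod_cast hik
    simp only [c]; (refine le_of_not_gt fun h_nl => ?_; linarith only [h_nl, hh, h4, this, mul_nonneg_of_nonpos_of_nonpos (Mathlib.Tactic.Linarith.sub_nonpos_of_le (Mathlib.Tactic.Linarith.natCast_nonneg ℝ m)) (le_of_lt (Mathlib.Tactic.Linarith.sub_neg_of_lt h_nl)), Mathlib.Tactic.Linarith.mul_zero_eq (Mathlib.Tactic.Linarith.sub_nonpos_of_le (Mathlib.Tactic.Linarith.natCast_nonneg ℝ i)) (sub_eq_zero_of_eq hh), Mathlib.Tactic.Linarith.mul_zero_eq (Mathlib.Tactic.Linarith.sub_nonpos_of_le (Mathlib.Tactic.Linarith.natCast_nonneg ℝ k)) (sub_eq_zero_of_eq hh), mul_nonneg_of_nonpos_of_nonpos (le_of_lt (Mathlib.Tactic.Linarith.sub_neg_of_lt h4)) (Mathlib.Tactic.Linarith.sub_nonpos_of_le this)])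
  let L : ℕ → ℝ := fun i =>
    if i = 1 then rp else if i = 2 then M + m - 2 else if i = m then rq else M + m - i
  let R : ℕ → ℝ := fun i => if i = 1 then M + m - 2 else if i = 2 then M + m - 1 else M + m + 1 - i
  let B : ℕ → ℝ := fun i => if i = 1 then lp else if i = 2 then hq - h / 2 else c i
  let T : ℕ → ℝ := fun i => if i = 1 then lp + 4 * g else if i = 2 then lp + g else hq
  let Lo : ℕ → ℝ := fun i => if i = 1 then lp + 2 * g else if i = 2 then hq else c i
  let Hi : ℕ → ℝ := fun i => if i = 1 then lp + 4 * g else if i = 2 then lp else c i + h / 4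
  have v1 : L 1 = rp ∧ R 1 = M + m - 2 ∧ B 1 = lp ∧ T 1 = lp + 4 * g ∧ Lo 1 = lp + 2 * g ∧
      Hi 1 = lp + 4 * g := by simp [L, R, B, T, Lo, Hi]
  have v2 : L 2 = M + m - 2 ∧ R 2 = M + m - 1 ∧ B 2 = hq - h / 2 ∧ T 2 = lp + g ∧ Lo 2 = hq ∧
      Hi 2 = lp := by simp [L, R, B, T, Lo, Hi]
  have v3 : ∀ i, 3 ≤ i → R i = M + m + 1 - i ∧ B i = c i ∧ T i = hq ∧ Lo i = c i ∧
      Hi i = c i + h / 4 := by
    intro i hi
    have a : i ≠ 1 := by omega
    have b : i ≠ 2 := by omega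
    simp [R, B, T, Lo, Hi, a, b]
  have v4 : ∀ i, 3 ≤ i → i < m → L i = M + m - i := by
    intro i hi hi'
    have a : i ≠ 1 := by omega
    have b : i ≠ 2 := by omega
    have d : i ≠ m := by omega
    simp [L, a, b, d]
  have v5 : L m = rq := by
    have a : m ≠ 1 := by omega
    have b : m ≠ 2 := by omega
    simp [L, a, b]
  obtain ⟨a1, a2, a3, a4, a5, a6⟩ := v1
  obtain ⟨b1, b2, b3, b4, b5, b6⟩ := v2
  have tri : ∀ i, 1 ≤ i → i = 1 ∨ i = 2 ∨ 3 ≤ i := by intro i hi; omega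
  refine ⟨L, R, B, T, Lo, Hi, lp + 6 * g, lq + h,
    ⟨⟨by linarith only [hg0], by linarith only [hg, hg0], by linarith only [hh0], by (refine lt_of_not_ge fun h_nl => ?_; linarith only [h_nl, h4, hh, hh0, hm', mul_nonneg_of_nonpos_of_nonpos (Mathlib.Tactic.Linarith.sub_nonpos_of_le (Mathlib.Tactic.Linarith.natCast_nonneg ℝ m)) (Mathlib.Tactic.Linarith.sub_nonpos_of_le h_nl), mul_nonneg_of_nonpos_of_nonpos (le_of_lt (Mathlib.Tactic.Linarith.sub_neg_of_lt h4)) (Mathlib.Tactic.Linarith.sub_nonpos_of_le hm')])⟩, ?_, ?_, ?_, ?_, ⟨a1, a3.ge⟩,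
      ⟨v5, (v3 m hm).2.2.1.le⟩, ?_, ?_, ?_⟩⟩
  · intro i i1 i2
    rcases tri i i1 with rfl | rfl | i3
    · exact ⟨by linarith only [h1, hm', a1, a2], by linarith only [hg0, a3, a4], by linarith only [hg0, a3, a5], by linarith only [hg0, a5, a6], by linarith only [a4, a6]⟩
    · exact ⟨by linarith only [b1, b2], by linarith only [h5, hh0, hg0, b3, b4], by linarith only [hh0, b3, b5], by linarith only [h5, b5, b6], by linarith only [hg0, b4, b6]⟩
    · obtain ⟨d1, d2, d3, d4, d5⟩ := v3 i i3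
      have := c1 i i3
      refine ⟨?_, by linarith only [hh0, d2, d3, this], by linarith only [d2, d4], by linarith only [hh0, d4, d5], by linarith only [hh0, d3, d5, this]⟩
      rcases Nat.eq_or_lt_of_le i2 with rfl | i4
      · linarith only [h2, v5, d1]
      · rw [v4 i i3 i4]; linarith only [d1]
  · intro i i1 i2
    have : lq + 4 * h ≤ hq := by (refine le_of_not_gt fun h_nl => ?_; linarith only [h_nl, hh, h4, hm', mul_nonneg_of_nonpos_of_nonpos (Mathlib.Tactic.Linarith.sub_nonpos_of_le (Mathlib.Tactic.Linarith.natCast_nonneg ℝ m)) (le_of_lt (Mathlib.Tactic.Linarith.sub_neg_of_lt h_nl)), mul_nonneg_of_nonpos_of_nonpos (le_of_lt (Mathlib.Tactic.Linarith.sub_neg_of_lt h4)) (Mathlib.Tactic.Linarith.sub_nonpos_of_le hm')])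
    rcases tri i i1 with rfl | rfl | i3
    · exact ⟨by linarith only [h5, hh0, a3, this], by linarith only [hg0, a4], by linarith only [hm', a2]⟩
    · exact ⟨by linarith only [hh0, b3, this], by linarith only [hg0, b4], by linarith only [hm', b2]⟩
    · obtain ⟨d1, d2, d3, d4, d5⟩ := v3 i i3
      have := c2 i i2
      have : (i : ℝ) ≤ m := by exact_mod_cast i2
      exact ⟨by linarith, by linarith only [h5, hg0, d3], by linarith only [d1, this]⟩
  · intro i i1 i2
    rcases tri i i1 with rfl | rfl | i3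
    · exact ⟨Or.inl (a2.trans b1.symm), by linarith only [hg0, a3, b4], by linarith only [h5, hh0, hg0, a4, b3]⟩
    · obtain ⟨d1, d2, d3, d4, d5⟩ := v3 3 le_rfl
      have := c1 3 le_rfl
      refine ⟨Or.inr ?_, by linarith only [hh0, b3, d3], by linarith only [h5, hh0, hg0, b4, d2, this]⟩
      rw [d1, b1]; push_cast; ring
    · obtain ⟨d1, d2, d3, d4, d5⟩ := v3 i i3
      obtain ⟨e1, e2, e3, e4, e5⟩ := v3 (i + 1) (by omega)
      have := c1 i i3
      have := c1 (i + 1) (by omega)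
      refine ⟨Or.inr ?_, by linarith, by linarith only [hh0, d3, e2, this]⟩
      rw [e1, v4 i i3 i2]; push_cast; ring
  · intro i k i1 ik k1
    obtain ⟨e1, e2, e3, e4, e5⟩ := v3 k (by omega)
    have : (i : ℝ) + 2 ≤ k := by exact_mod_cast ik
    rcases tri i i1 with rfl | rfl | i3
    · right; linarith only [h5, a3, e3]
    · left; push_cast at this; linarith only [b1, e1, this]
    · left; rw [v4 i i3 (by omega)]; linarith only [e1, this]
  · intro i i1 i2
    have : (i : ℝ) + 1 ≤ m := by exact_mod_cast i2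
    rcases tri i (by omega) with rfl | rfl | i3
    · omega
    · linarith only [hm', b1]
    · rw [v4 i i3 i2]; linarith only [this]
  · intro i k i1 i2 k1 k2 hne
    rcases tri i i1 with rfl | rfl | i3 <;> rcases tri k k1 with rfl | rfl | k3
    · omega
    · right; left; linarith only [hg0, a5, b4]
    · obtain ⟨e1, e2, e3, e4, e5⟩ := v3 k k3
      right; left; linarith only [h5, hg0, a5, e3]
    · left; linarith only [a2, b2]
    · omega
    · obtain ⟨e1, e2, e3, e4, e5⟩ := v3 k k3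
      have : (3 : ℝ) ≤ k := by exact_mod_cast k3
      left; linarith only [b2, e1, this]
    · obtain ⟨d1, d2, d3, d4, d5⟩ := v3 i i3
      have := c1 i i3
      right; right; linarith only [h5, hh0, a3, d5, this]
    · obtain ⟨d1, d2, d3, d4, d5⟩ := v3 i i3
      have := c1 i i3
      right; right; linarith only [hh0, b3, d5, this]
    · obtain ⟨d1, d2, d3, d4, d5⟩ := v3 i i3
      obtain ⟨e1, e2, e3, e4, e5⟩ := v3 k k3
      rcases Nat.lt_or_gt_of_ne hne with hlt | hlt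
      · have := c3 k i hlt
        right; right; linarith only [hh0, d5, e2, this]
      · have : (i : ℝ) < k := by exact_mod_cast hlt
        left; linarith only [d1, e1, this]
  · intro i k i1 ik k2
    rcases tri i i1 with rfl | rfl | i3 <;> rcases tri k (by omega) with rfl | rfl | k3
    · omega
    · linarith only [hg0, a5, b6]
    · obtain ⟨e1, e2, e3, e4, e5⟩ := v3 k k3
      have := c1 k k3
      linarith only [h5, hh0, hg0, a5, e5, this]
    · omega
    · omega
    · obtain ⟨e1, e2, e3, e4, e5⟩ := v3 k k3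
      have := c1 k k3
      linarith only [hh0, b5, e5, this]
    · omega
    · omega
    · obtain ⟨d1, d2, d3, d4, d5⟩ := v3 i i3
      obtain ⟨e1, e2, e3, e4, e5⟩ := v3 k k3
      have := c3 i k ik
      linarith only [hh0, d4, e5, this]

end Pool.Agent.Work.MP_c0f83f_co
end

-- merged part: Pool.Agent.Work.MP_c0f83f_co.Ear
section
/-!
The ear step and the conclusion of the incremental drawing.
-/

set_option autoImplicit false

namespace Pool.Agent.Work.MP_c0f83f_co

variable {V : Type} {G : SimpleGraph V}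

/-- Breadth-first levels from `p` inside the set `D`. -/
def Lev (G : SimpleGraph V) (D : Set V) (p : V) : ℕ → V → Prop
  | 0, v => v = p
  | n + 1, v => v ∈ D ∧ ∃ u, Lev G D p n u ∧ G.Adj u v

theorem lev_path {D : Set V} {p : V} (n : ℕ) : ∀ v, Lev G D p n v →
    ∃ a : ℕ → V, a n = v ∧ (∀ i ≤ n, Lev G D p i (a i)) ∧ ∀ i < n, G.Adj (a i) (a (i + 1)) := by
  induction n with
  | zero =>
    intro v hv
    refine ⟨fun _ => v, rfl, ?_, fun i hi => absurd hi (by omega)⟩
    intro i hi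
    obtain rfl : i = 0 := by omega
    exact hv
  | succ n ih =>
    intro v hv
    obtain ⟨hD, u, hu, huv⟩ := hv
    obtain ⟨a, h1, h2, h3⟩ := ih u hu
    refine ⟨fun i => if i ≤ n then a i else v, by simp, ?_, ?_⟩
    · intro i hi
      by_cases h : i ≤ n
      · simp only [if_pos h]; exact h2 i h
      · obtain rfl : i = n + 1 := by omega
        simp only [if_neg h]; exact ⟨hD, u, hu, huv⟩
    · intro i hi
      by_cases h : i < n
      · simp only [if_pos h.le, if_pos (show i + 1 ≤ n by omega)]; exact h3 i h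
      · obtain rfl : i = n := by omega
        simp only [if_pos le_rfl, if_neg (show ¬ i + 1 ≤ i by omega), h1]; exact huv

/-- A shortest path from `p` to `q` through the component of `x0`, with the distance function. -/
theorem exists_ear {S : Set V} {x0 p q : V} (hx0 : x0 ∉ S) (hp : Att G S x0 p)
    (hq : Att G S x0 q) (hpq : p ≠ q) (hconn : In G S p q) :
    ∃ (m : ℕ) (a : ℕ → V) (d : V → ℕ), 1 ≤ m ∧ IsEar G S a m ∧ a 0 = p ∧ a (m + 1) = q ∧
      (∀ i, 1 ≤ i → i ≤ m → In G Sᶜ x0 (a i) ∧ d (a i) = i) ∧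
      (∀ u v, In G Sᶜ x0 u → In G Sᶜ x0 v → G.Adj u v → d v ≤ d u + 1) ∧
      (∀ v, In G Sᶜ x0 v → G.Adj p v → d v ≤ 1) ∧
      (∀ v, In G Sᶜ x0 v → G.Adj v q → m ≤ d v) := by
  classical
  set D : Set V := {v | In G Sᶜ x0 v} with hD
  have hDS : ∀ v ∈ D, v ∉ S := fun v hv => In.mem hv hx0
  have hex : ∀ v ∈ D, ∃ n, Lev G D p n v := by
    obtain ⟨-, y, hy, hyp⟩ := hp
    have key : ∀ v, In G Sᶜ y v → ∃ n, Lev G D p n v := by
      intro v hv
      induction hv with
      | refl => exact ⟨1, hy, p, rfl, hyp.symm⟩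
      | @tail u w h1 h2 ih =>
        obtain ⟨n, hn⟩ := ih
        exact ⟨n + 1, hy.trans (Relation.ReflTransGen.tail h1 h2), u, hn, h2.1⟩
    intro v hv
    exact key v (hy.symm.trans hv)
  let d : V → ℕ := fun v => sInf {n | Lev G D p n v}
  have dmem : ∀ v ∈ D, Lev G D p (d v) v := fun v hv => Nat.sInf_mem (hex v hv)
  have dle : ∀ v n, Lev G D p n v → d v ≤ n := fun v n h => Nat.sInf_le h
  have lip : ∀ u v, u ∈ D → v ∈ D → G.Adj u v → d v ≤ d u + 1 := fun u v hu hv h =>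
    dle v _ ⟨hv, u, dmem u hu, h⟩
  have levD : ∀ n v, Lev G D p (n + 1) v → v ∈ D := fun n v h => h.1
  obtain ⟨z, ⟨hz, hzq⟩, hmin⟩ : ∃ z, (z ∈ D ∧ G.Adj z q) ∧
      ∀ w, (w ∈ D ∧ G.Adj w q) → d z ≤ d w := by
    obtain ⟨-, y, hy, hyq⟩ := hq
    have hne : {n | ∃ z, (z ∈ D ∧ G.Adj z q) ∧ d z = n}.Nonempty := ⟨d y, y, ⟨hy, hyq⟩, rfl⟩
    obtain ⟨z, hz, hz'⟩ := Nat.sInf_mem hne
    exact ⟨z, hz, fun w hw => hz' ▸ Nat.sInf_le ⟨w, hw, rfl⟩⟩
  set m := d z with hm
  have hm1 : 1 ≤ m := by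
    by_contra h
    have h0 : m = 0 := by omega
    have := dmem z hz
    rw [← hm, h0] at this
    exact hDS z hz (this ▸ hp.1)
  obtain ⟨a, h1, h2, h3⟩ := lev_path m z (dmem z hz)
  have aD : ∀ i, 1 ≤ i → i ≤ m → a i ∈ D := by
    intro i i1 i2
    obtain ⟨j, rfl⟩ : ∃ j, i = j + 1 := ⟨i - 1, by omega⟩
    exact levD j _ (h2 _ i2)
  have a0 : a 0 = p := h2 0 (by omega)
  have dlow : ∀ k, k < m → m ≤ d (a (m - k)) + k := by
    intro k
    induction k with
    | zero => intro _; rw [Nat.sub_zero, h1]; omega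
    | succ k ih =>
      intro hk
      have e : m - k = m - (k + 1) + 1 := by omega
      have := lip _ _ (aD (m - (k + 1)) (by omega) (by omega)) (aD (m - (k + 1) + 1) (by omega)
        (by omega)) (h3 _ (by omega))
      have := ih (by omega)
      rw [e] at this
      omega
  have da : ∀ i, 1 ≤ i → i ≤ m → d (a i) = i := by
    intro i i1 i2
    have := dlow (m - i) (by omega)
    rw [show m - (m - i) = i by omega] at this
    have := dle _ _ (h2 i i2)
    omega
  let a' : ℕ → V := fun i => if i ≤ m then a i else q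
  have e1 : ∀ i, i ≤ m → a' i = a i := fun i hi => by simp only [a', if_pos hi]
  have e2 : a' (m + 1) = q := by simp [a']
  have e0 : a' 0 = p := by rw [e1 0 (by omega), a0]
  have inner : ∀ i, 1 ≤ i → i ≤ m → a' i ∉ S := fun i i1 i2 => by
    rw [e1 i i2]; exact hDS _ (aD i i1 i2)
  refine ⟨m, a', d, hm1, ⟨⟨?_, ?_⟩, e0 ▸ hp.1, e2 ▸ hq.1, inner, e0 ▸ e2 ▸ hconn⟩, e0, e2,
    ?_, lip, ?_, ?_⟩
  · intro i hi
    rcases Nat.lt_or_ge i m with h | h
    · rw [e1 i h.le, e1 (i + 1) h]; exact h3 i h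
    · obtain rfl : i = m := by omega
      rw [e1 _ le_rfl, e2, h1]; exact hzq
  · have tri : ∀ i, i ≤ m + 1 → i = 0 ∨ i = m + 1 ∨ (1 ≤ i ∧ i ≤ m) := by intro i hi; omega
    intro i j hi hj h
    rcases tri i hi with rfl | rfl | ⟨i1, i2⟩ <;> rcases tri j hj with rfl | rfl | ⟨j1, j2⟩
    · rfl
    · rw [e0, e2] at h; exact absurd h hpq
    · exact absurd (h ▸ e0 ▸ hp.1) (inner j j1 j2)
    · rw [e0, e2] at h; exact absurd h.symm hpq
    · rfl
    · exact absurd (h ▸ e2 ▸ hq.1) (inner j j1 j2)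
    · exact absurd (h.symm ▸ e0 ▸ hp.1) (inner i i1 i2)
    · exact absurd (h.symm ▸ e2 ▸ hq.1) (inner i i1 i2)
    · rw [e1 i i2, e1 j j2] at h
      rw [← da i i1 i2, ← da j j1 j2, h]
  · intro i i1 i2
    rw [e1 i i2]
    exact ⟨aD i i1 i2, da i i1 i2⟩
  · intro v hv h
    exact dle v 1 ⟨hv, p, rfl, h⟩
  · intro v hv h
    exact hmin v ⟨hv, h⟩

/-- The ear step: an innermost component with two attachments. -/
theorem step_ear [Finite V] (hK : ¬ HasK4Minor G) (hg : 7 ≤ G.egirth) {S : Set V}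
    {l r b t lo hi : V → ℝ} (hG : Geo G S l r b t lo hi) (hC : Comb G S lo) {x0 p q : V}
    (hx0 : x0 ∉ S) (hp : Att G S x0 p) (hq : Att G S x0 q) (hlt : lo q < lo p)
    (hmin : ∀ w, Opn G S w → lo q < lo w → lo w < lo p → False) :
    ∃ P : Set V, P.Nonempty ∧ Disjoint S P ∧ Good G (S ∪ P) := by
  classical
  have hpq : p ≠ q := fun e => by rw [e] at hlt; exact lt_irrefl _ hlt
  have op := hp.opn hx0
  have oq := hq.opn hx0
  obtain ⟨p1, p2, p3⟩ := hG.psub p op
  obtain ⟨q1, q2, q3⟩ := hG.psub q oq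
  have hqp : hi q < lo p := by
    rcases hG.pdisj p q op oq hpq with c | c
    · linarith
    · exact c
  have hother : ∀ w, Opn G S w → w ≠ p → w ≠ q → hi p < lo w ∨ hi w < lo q := by
    intro w ow n1 n2
    have := (hG.psub w ow).2.1
    rcases hG.pdisj w p ow op n1 with c | c
    · rcases hG.pdisj w q ow oq n2 with c' | c'
      · exact Or.inr c'
      · exact (hmin w ow (by linarith) (by linarith)).elim
    · exact Or.inl c
  have hatt : ∀ u, Att G S x0 u → u = p ∨ u = q := by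
    intro u hu
    by_contra hcon
    push Not at hcon
    have ou := hu.opn hx0
    have := (hG.psub u ou).2.1
    rcases hother u ou hcon.1 hcon.2 with c | c
    · exact (hC.nc x0 x0 hx0 hx0 q u p hq hu hp hlt (by linarith)).1 (In.refl _ _)
    · exact (hC.nc x0 x0 hx0 hx0 u p q hu hp hq (by linarith) hlt).1 (In.refl _ _)
  obtain ⟨m, a, d, hm1, ear, a0, a1, ha, lip, dp, dq⟩ :=
    exists_ear hx0 hp hq hpq (hC.conn x0 hx0 p q hp hq)
  have hm3 : 3 ≤ m := by
    by_contra hcon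
    have e0 := ear.path.adj 0 (by omega)
    have e1 := ear.path.adj m (by omega)
    rw [a0] at e0
    rw [a1] at e1
    apply hpq
    apply hC.long p hp.1 q hq.1 (a 1) (a m) (ear.inner 1 le_rfl hm1) (ear.inner m hm1 le_rfl) e0 _ e1
    obtain rfl | rfl : m = 1 ∨ m = 2 := by omega
    · exact Or.inl rfl
    · exact Or.inr (ear.path.adj 1 (by omega))
  obtain ⟨M, hM⟩ := (Set.finite_range r).bddAbove
  have hM' : ∀ v, r v ≤ M := fun v => hM ⟨v, rfl⟩
  obtain ⟨L, R, B, T, Lo, Hi, lp', hq', ec⟩ :=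
    exists_earCoords (r p) (r q) M (lo p) (hi p) (lo q) (hi q) m hm3 (hM' p) (hM' q) p2 q2 hqp
  obtain ⟨f1, f2, f3, f4⟩ := ec.f0
  set P : Set V := Arc a 1 (m + 1) with hP
  have memP : ∀ v, v ∈ P ↔ ∃ i, 1 ≤ i ∧ i ≤ m ∧ a i = v := fun v =>
    ⟨fun ⟨k, k1, k2, k3⟩ => ⟨k, k1, by omega, k3⟩, fun ⟨k, k1, k2, k3⟩ => ⟨k, k1, by omega, k3⟩⟩
  have aP : ∀ i, 1 ≤ i → i ≤ m → a i ∈ P := fun i i1 i2 => (memP _).mpr ⟨i, i1, i2, rfl⟩
  have SP : ∀ v ∈ S, v ∉ P := by
    intro v hv hvP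
    obtain ⟨i, i1, i2, rfl⟩ := (memP v).mp hvP
    exact ear.inner i i1 i2 hv
  let ext : (ℕ → ℝ) → (V → ℝ) → V → ℝ := fun F f v => if v ∈ P then F (d v) else f v
  have extS : ∀ F f, ∀ v ∈ S, ext F f v = f v := fun F f v hv => by
    simp only [ext, if_neg (SP v hv)]
  have extA : ∀ F f i, 1 ≤ i → i ≤ m → ext F f (a i) = F i := fun F f i i1 i2 => by
    simp only [ext, if_pos (aP i i1 i2), (ha i i1 i2).2]
  set lo' := ext Lo (Function.update lo p lp') with hlo'
  set hi' := ext Hi (Function.update hi q hq') with hhi'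
  have lo_p : lo' p = lp' := by rw [hlo', extS _ _ p hp.1, Function.update_self]
  have hi_q : hi' q = hq' := by rw [hhi', extS _ _ q hq.1, Function.update_self]
  have lo_S : ∀ v ∈ S, v ≠ p → lo' v = lo v := fun v hv h => by
    rw [hlo', extS _ _ v hv, Function.update_of_ne h]
  have hi_S : ∀ v ∈ S, v ≠ q → hi' v = hi v := fun v hv h => by
    rw [hhi', extS _ _ v hv, Function.update_of_ne h]
  have lo_A : ∀ i, 1 ≤ i → i ≤ m → lo' (a i) = Lo i := extA _ _
  have hi_A : ∀ i, 1 ≤ i → i ≤ m → hi' (a i) = Hi i := extA _ _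
  have hport : ∀ v, Opn G S v → lo v ≤ lo' v ∧ lo' v < hi' v ∧ hi' v ≤ hi v := by
    intro v hv
    by_cases h1 : v = p
    · subst h1
      rw [lo_p, hi_S v hv.1 hpq]
      exact ⟨f1.le, f2, le_rfl⟩
    by_cases h2 : v = q
    · subst h2
      rw [hi_q, lo_S v hv.1 h1]
      exact ⟨le_rfl, f3, f4.le⟩
    rw [lo_S v hv.1 h1, hi_S v hv.1 h2]
    exact ⟨le_rfl, (hG.psub v hv).2.1, le_rfl⟩
  have hout : ∀ v, Opn G S v → lp' ≤ lo' v ∨ hi' v ≤ hq' := by
    intro v hv
    by_cases h1 : v = p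
    · subst h1; rw [lo_p]; exact Or.inl le_rfl
    by_cases h2 : v = q
    · subst h2; rw [hi_q]; exact Or.inr le_rfl
    rw [lo_S v hv.1 h1, hi_S v hv.1 h2]
    rcases hother v hv h1 h2 with c | c
    · left; linarith only [f2, c]
    · right; linarith
  -- adjacency between ear vertices and the rest
  have adjS : ∀ i, 1 ≤ i → i ≤ m → ∀ v ∈ S, G.Adj (a i) v → (i = 1 ∧ v = p) ∨ (i = m ∧ v = q) := by
    intro i i1 i2 v hv h
    rcases hatt v ⟨hv, a i, (ha i i1 i2).1, h⟩ with rfl | rfl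
    · have := dp _ (ha i i1 i2).1 h.symm
      rw [(ha i i1 i2).2] at this
      exact Or.inl ⟨by omega, rfl⟩
    · have := dq _ (ha i i1 i2).1 h
      rw [(ha i i1 i2).2] at this
      exact Or.inr ⟨by omega, rfl⟩
  have adjA : ∀ i k, 1 ≤ i → i ≤ m → 1 ≤ k → k ≤ m → G.Adj (a i) (a k) → k = i + 1 ∨ i = k + 1 := by
    intro i k i1 i2 k1 k2 h
    have c1 := lip _ _ (ha i i1 i2).1 (ha k k1 k2).1 h
    have c2 := lip _ _ (ha k k1 k2).1 (ha i i1 i2).1 h.symm
    rw [(ha i i1 i2).2, (ha k k1 k2).2] at c1 c2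
    have : i ≠ k := fun e => h.ne (by rw [e])
    omega
  -- the order of the ports along the ear
  have hdec : ∀ i k, i < k → k ≤ m + 1 → lo' (a k) < lo' (a i) := by
    intro i k hik hk
    rcases Nat.eq_zero_or_pos i with rfl | i1
    · rw [a0, lo_p]
      rcases Nat.eq_or_lt_of_le hk with rfl | k2
      · rw [a1, lo_S q hq.1 hpq.symm]; linarith only [hqp, f1, f3, f4]
      · obtain ⟨-, -, -, c1, c2⟩ := ec.box k hik (by omega)
        obtain ⟨-, c3, -⟩ := ec.range k hik (by omega)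
        rw [lo_A k hik (by omega)]; linarith only [c1, c2, c3]
    · rcases Nat.eq_or_lt_of_le hk with rfl | k2
      · obtain ⟨-, -, c1, -, -⟩ := ec.box i i1 (by omega)
        obtain ⟨c3, -, -⟩ := ec.range i i1 (by omega)
        rw [a1, lo_S q hq.1 hpq.symm, lo_A i i1 (by omega)]; linarith only [f3, c1, c3]
      · have c1 := ec.ord i k i1 hik (by omega)
        obtain ⟨-, -, -, c2, -⟩ := ec.box k (by omega) (by omega)
        rw [lo_A i i1 (by omega), lo_A k (by omega) (by omega)]; linarith only [c1, c2]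
  have hidx : ∀ i k, i ≤ m + 1 → k ≤ m + 1 → lo' (a k) < lo' (a i) → i < k := by
    intro i k hi' hk h
    by_contra hcon
    rcases Nat.eq_or_lt_of_le (not_lt.mp hcon) with rfl | h'
    · exact lt_irrefl _ h
    · exact lt_asymm h (hdec k i h' hi')
  have hT : ∀ u, (Att G S x0 u ∨ u ∈ P) → ∃ i, i ≤ m + 1 ∧ a i = u := by
    rintro u (h | h)
    · rcases hatt u h with rfl | rfl
      · exact ⟨0, by omega, a0⟩
      · exact ⟨m + 1, le_rfl, a1⟩
    · obtain ⟨i, i1, i2, i3⟩ := (memP u).mp h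
      exact ⟨i, by omega, i3⟩
  have aSP : ∀ i, i ≤ m + 1 → a i ∈ S ∪ P := fun i hi =>
    ear.arc_sub (i := 0) (j := m + 2) le_rfl (mem_arc (Nat.zero_le _) (by omega))
  refine ⟨P, ⟨a 1, aP 1 le_rfl hm1⟩, Set.disjoint_left.mpr SP,
    ext L l, ext R r, ext B b, ext T t, lo', hi',
    hG.extend ?_ hport ?_ ?_ ?_ ?_ ?_ ?_, hC.extend (x0 := x0) hx0 ?_ ?_ ?_ ?_ ?_ ?_⟩
  · intro v hv
    exact ⟨extS _ _ v hv, extS _ _ v hv, extS _ _ v hv, extS _ _ v hv⟩
  · intro v hv
    obtain ⟨i, i1, i2, rfl⟩ := (memP v).mp hv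
    rw [lo_A i i1 i2, hi_A i i1 i2]
    simp only [extA _ _ i i1 i2]
    exact ec.box i i1 i2
  · intro u hu v hv huv
    obtain ⟨i, i1, i2, rfl⟩ := (memP u).mp hu
    obtain ⟨c1, c2, -⟩ := ec.box i i1 i2
    obtain ⟨c3, c4, c5⟩ := ec.range i i1 i2
    unfold Touch
    rcases hv with hv | hv
    · simp only [extA _ _ i i1 i2, extS _ _ v hv]
      rcases adjS i i1 i2 v hv huv with ⟨rfl, rfl⟩ | ⟨rfl, rfl⟩
      · obtain ⟨e1, e2⟩ := ec.one
        exact ⟨Or.inr e1.symm, by linarith only [c2, c4, p3, f2], by linarith only [c2, p1, e2]⟩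
      · obtain ⟨e1, e2⟩ := ec.last
        exact ⟨Or.inr e1.symm, by linarith only [c2, q3, e2], by linarith only [c2, c3, q1, f3]⟩
    · obtain ⟨k, k1, k2, rfl⟩ := (memP v).mp hv
      simp only [extA _ _ i i1 i2, extA _ _ k k1 k2]
      rcases adjA i k i1 i2 k1 k2 huv with rfl | rfl
      · exact ec.cons i i1 (by omega)
      · obtain ⟨e1, e2, e3⟩ := ec.cons k k1 (by omega)
        exact ⟨e1.symm, e3, e2⟩
  · intro u hu v hv hne huv
    obtain ⟨i, i1, i2, rfl⟩ := (memP u).mp hu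
    obtain ⟨c1, c2, -⟩ := ec.box i i1 i2
    obtain ⟨c3, c4, c5⟩ := ec.range i i1 i2
    unfold Sep
    rcases hv with hv | hv
    · simp only [extA _ _ i i1 i2, extS _ _ v hv]
      by_cases h1 : i = 1
      · subst h1
        obtain ⟨e1, e2⟩ := ec.one
        have hvp : v ≠ p := by
          rintro rfl
          exact huv (a0 ▸ (ear.path.adj 0 (by omega)).symm)
        rcases hG.pfree p op v hv hvp with c | c | c
        · exact Or.inr (Or.inl (by linarith only [e1, c]))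
        · exact Or.inr (Or.inr (Or.inr (by linarith only [e2, c])))
        · exact Or.inr (Or.inr (Or.inl (by linarith only [f2, c4, c])))
      by_cases h2 : i = m
      · subst h2
        obtain ⟨e1, e2⟩ := ec.last
        have hvq : v ≠ q := by
          rintro rfl
          exact huv (a1 ▸ ear.path.adj i (by omega))
        rcases hG.pfree q oq v hv hvq with c | c | c
        · exact Or.inr (Or.inl (by linarith only [e1, c]))
        · exact Or.inr (Or.inr (Or.inr (by linarith only [f3, c3, c])))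
        · exact Or.inr (Or.inr (Or.inl (by linarith only [e2, c])))
      have := ec.mid i (by omega) (by omega)
      exact Or.inr (Or.inl (by linarith only [this, hM', hM' v]))
    · obtain ⟨k, k1, k2, rfl⟩ := (memP v).mp hv
      simp only [extA _ _ i i1 i2, extA _ _ k k1 k2]
      have n0 : i ≠ k := fun e => hne (by rw [e])
      have n1 : k ≠ i + 1 := by
        rintro rfl
        exact huv (ear.path.adj i (by omega))
      have n2 : i ≠ k + 1 := by
        rintro rfl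
        exact huv (ear.path.adj k (by omega)).symm
      rcases Nat.lt_or_gt_of_ne n0 with h | h
      · rcases ec.far i k i1 (by omega) k2 with c | c
        · exact Or.inr (Or.inl c)
        · exact Or.inr (Or.inr (Or.inr c))
      · rcases ec.far k i k1 (by omega) i2 with c | c
        · exact Or.inl c
        · exact Or.inr (Or.inr (Or.inl c))
  · intro u hu w hw hne
    obtain ⟨i, i1, i2, rfl⟩ := (memP u).mp hu
    rw [lo_A i i1 i2, hi_A i i1 i2]
    rcases hw with hw | hw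
    · simp only [extA _ _ i i1 i2, extS _ _ w hw]
      obtain ⟨-, -, c5⟩ := ec.range i i1 i2
      exact Or.inl (by linarith only [c5, hM', hM' w])
    · obtain ⟨k, k1, k2, rfl⟩ := (memP w).mp hw
      simp only [extA _ _ i i1 i2, extA _ _ k k1 k2]
      exact ec.free i k i1 i2 k1 k2 (fun e => hne (by rw [e]))
  · intro v hv w hw
    obtain ⟨k, k1, k2, rfl⟩ := (memP w).mp hw
    simp only [extA _ _ k k1 k2]
    obtain ⟨c3, c4, -⟩ := ec.range k k1 k2
    rcases hout v hv with c | c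
    · left; linarith only [c4, c]
    · right; linarith only [c3, c]
  · intro u hu v hv hne
    obtain ⟨i, i1, i2, rfl⟩ := (memP u).mp hu
    rw [lo_A i i1 i2, hi_A i i1 i2]
    rcases hv with hv | hv
    · obtain ⟨-, -, c1, -, c2⟩ := ec.box i i1 i2
      obtain ⟨c3, c4, -⟩ := ec.range i i1 i2
      rcases hout v hv with c | c
      · left; linarith only [c2, c4, c]
      · right; linarith only [c1, c3, c]
    · obtain ⟨k, k1, k2, rfl⟩ := (memP v).mp hv
      rw [lo_A k k1 k2, hi_A k k1 k2]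
      have n0 : i ≠ k := fun e => hne (by rw [e])
      rcases Nat.lt_or_gt_of_ne n0 with h | h
      · exact Or.inr (ec.ord i k i1 h k2)
      · exact Or.inl (ec.ord k i k1 h i2)
  · intro v hv
    obtain ⟨i, i1, i2, rfl⟩ := (memP v).mp hv
    exact (ha i i1 i2).1
  · intro u v hu hv; exact hG.order hport hu hv
  · intro u1 u2 h1 h2 w hw k1 k2
    obtain ⟨i, hi1, rfl⟩ := hT u1 h1
    obtain ⟨k, hk1, rfl⟩ := hT u2 h2
    have b1 : lo' q ≤ lo' (a i) := by
      rcases Nat.eq_or_lt_of_le hi1 with rfl | h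
      · rw [a1]
      · rw [← a1]; exact (hdec i (m + 1) h le_rfl).le
    have b2 : lo' (a k) ≤ lo' p := by
      rcases Nat.eq_zero_or_pos k with rfl | h
      · rw [a0]
      · rw [← a0]; exact (hdec 0 k h hk1).le
    exact hmin w hw ((hG.order hport oq hw).mpr (by linarith only [k1, b1]))
      ((hG.order hport hw op).mpr (by linarith only [k2, b2]))
  · intro x y hx hy hxD hyD u1 u2 w1 b1 b2 b3 k1 k2
    obtain ⟨i1, hi1, rfl⟩ := hT _ (att_new hxD b1)
    obtain ⟨i2, hi2, rfl⟩ := hT _ (att_new hxD b2)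
    obtain ⟨k, hk, rfl⟩ := hT _ (att_new hyD b3)
    have o1 : k < i1 := hidx _ _ hk hi1 k1
    have o2 : i2 < k := hidx _ _ hi2 hk k2
    have dis : ∀ z, z ∉ S ∪ P → Disjoint (S ∪ P) {v | In G (S ∪ P)ᶜ z v} := fun z hz =>
      Set.disjoint_left.mpr fun v hv hv' => In.mem hv' hz hv
    have nb : ∀ {z u}, Att G (S ∪ P) z u → ∃ v ∈ {v | In G (S ∪ P)ᶜ z v}, G.Adj u v :=
      fun ⟨_, y, hy, h⟩ => ⟨y, hy, h.symm⟩
    have hnot : ¬ In G (S ∪ P)ᶜ x y := by
      intro hxy
      obtain ⟨c1, y', c2, c3⟩ := b3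
      exact ear.no_three hK (rooted_reach _ x) (dis x hx) o2 o1 hi1 (nb b2)
        ⟨y', hxy.trans c2, c3.symm⟩ (nb b1)
    refine ⟨hnot, ?_⟩
    intro w2 b4
    obtain ⟨k2', hk2, rfl⟩ := hT _ (att_new hyD b4)
    have dxy : Disjoint {v | In G (S ∪ P)ᶜ x v} {v | In G (S ∪ P)ᶜ y v} :=
      Set.disjoint_left.mpr fun v h1 h2 => hnot (In.trans h1 (In.symm h2))
    constructor
    · by_contra hc
      have o3 : i1 < k2' := hidx _ _ hi1 hk2 (not_le.mp hc)
      exact ear.no_cross hK (rooted_reach _ x) (rooted_reach _ y) (dis x hx) (dis y hy) dxy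
        o2 o1 o3 hk2 (nb b2) (nb b3) (nb b1) (nb b4)
    · by_contra hc
      have o3 : k2' < i2 := hidx _ _ hk2 hi2 (not_le.mp hc)
      exact ear.no_cross hK (rooted_reach _ y) (rooted_reach _ x) (dis y hy) (dis x hx) dxy.symm
        o3 o2 o1 hi1 (nb b4) (nb b2) (nb b3) (nb b1)
  · intro u hu w hw x y hx hy hxD e1 e2 e3
    have hxy : In G (S ∪ P)ᶜ x y := by
      rcases e2 with rfl | e2
      · exact In.refl _ _
      · exact In.single e2 hx hy
    have hsub : (S ∪ P)ᶜ ⊆ Sᶜ := Set.compl_subset_compl.mpr Set.subset_union_left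
    have hyD : In G Sᶜ x0 y := hxD.trans (hxy.mono hsub)
    obtain ⟨s, hs, rfl⟩ := hT _ (att_new hxD (⟨hu, x, In.refl _ _, e1.symm⟩ : Att G (S ∪ P) x u))
    obtain ⟨s', hs', rfl⟩ := hT _ (att_new hxD (⟨hw, y, hxy, e3⟩ : Att G (S ∪ P) x w))
    have nx : ∀ i ≤ m + 1, a i ≠ x := fun i hi e => hx (e ▸ aSP i hi)
    have ny : ∀ i ≤ m + 1, a i ≠ y := fun i hi e => hy (e ▸ aSP i hi)
    have up : ∀ z, In G Sᶜ x0 z → ∀ i, i ≤ m → G.Adj (a i) z → d z ≤ i + 1 := by
      intro z hz i hi h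
      rcases Nat.eq_zero_or_pos i with rfl | i1
      · exact dp z hz (a0 ▸ h)
      · have := lip _ _ (ha i i1 hi).1 hz h
        rwa [(ha i i1 hi).2] at this
    have down : ∀ z, In G Sᶜ x0 z → ∀ i, 1 ≤ i → i ≤ m + 1 → G.Adj z (a i) → i ≤ d z + 1 := by
      intro z hz i i1 hi h
      rcases Nat.eq_or_lt_of_le hi with rfl | i2
      · have := dq z hz (a1 ▸ h)
        omega
      · have := lip _ _ hz (ha i i1 (by omega)).1 h
        rwa [(ha i i1 (by omega)).2] at this
    have dxy : d y ≤ d x + 1 ∧ d x ≤ d y + 1 := by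
      rcases e2 with rfl | e2
      · omega
      · exact ⟨lip _ _ hxD hyD e2, lip _ _ hyD hxD e2.symm⟩
    rcases lt_trichotomy s s' with h | h | h
    · have c1 := up x hxD s (by omega) e1
      have c2 := down y hyD s' (by omega) hs' e3
      exact (no_short_detour hg ear.path h hs' (by omega) nx ny e1 e2 e3).elim
    · rw [h]
    · have c1 := up y hyD s' (by omega) e3.symm
      have c2 := down x hxD s (by omega) hs e1.symm
      exact (no_short_detour hg ear.path h hs (by omega) ny nx e3.symm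
        (e2.imp Eq.symm SimpleGraph.Adj.symm) e1.symm).elim
  · intro u w h1 h2
    obtain ⟨i, hi1, rfl⟩ := hT u h1
    obtain ⟨k, hk1, rfl⟩ := hT w h2
    obtain ⟨z, -, hz⟩ := rooted_arc ear.path (i := 0) (j := m + 2) (by omega) le_rfl
    exact (((hz _ (mem_arc (Nat.zero_le _) (by omega))).symm.trans
      (hz _ (mem_arc (Nat.zero_le _) (by omega)))).mono (ear.arc_sub le_rfl))

theorem step [Finite V] (hK : ¬ HasK4Minor G) (hg : 7 ≤ G.egirth) {S : Set V} (h : Good G S)
    (hS : S ≠ Set.univ) : ∃ P : Set V, P.Nonempty ∧ Disjoint S P ∧ Good G (S ∪ P) := by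
  by_cases h0 : ∃ a, a ∉ S ∧ ∀ p, ¬ Att G S a p
  · obtain ⟨a, ha, hno⟩ := h0
    exact ⟨{a}, Set.singleton_nonempty a, Set.disjoint_singleton_right.mpr ha, step_root h ha hno⟩
  by_cases h1 : ∃ x p, x ∉ S ∧ Att G S x p ∧ ∀ q, Att G S x q → q = p
  · obtain ⟨x, p, hx, ⟨hp, a, hxa, hap⟩, hone⟩ := h1
    have ha : a ∉ S := hxa.mem hx
    refine ⟨{a}, Set.singleton_nonempty a, Set.disjoint_singleton_right.mpr ha,
      step_pendant hg h ha hp hap ?_⟩
    rintro q ⟨hq, y, hy, hyq⟩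
    exact hone q ⟨hq, y, hxa.trans hy, hyq⟩
  push Not at h0 h1
  obtain ⟨l, r, b, t, lo, hi, hG, hC⟩ := h
  have two : ∀ x p, x ∉ S → Att G S x p →
      ∃ q, Att G S x q ∧ (lo q < lo p ∨ lo p < lo q) := by
    intro x p hx hp
    obtain ⟨q, hq, hne⟩ := h1 x p hx hp
    have c1 := (hG.psub p (hp.opn hx)).2.1
    have c2 := (hG.psub q (hq.opn hx)).2.1
    refine ⟨q, hq, ?_⟩
    rcases hG.pdisj q p (hq.opn hx) (hp.opn hx) hne with c | c
    · left; linarith
    · right; linarith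
  have hne : {z : V × V × V | z.1 ∉ S ∧ Att G S z.1 z.2.1 ∧ Att G S z.1 z.2.2 ∧
      lo z.2.2 < lo z.2.1}.Nonempty := by
    obtain ⟨x, hx⟩ := (Set.ne_univ_iff_exists_notMem S).mp hS
    obtain ⟨p, hp⟩ := h0 x hx
    obtain ⟨q, hq, c | c⟩ := two x p hx hp
    · exact ⟨(x, p, q), hx, hp, hq, c⟩
    · exact ⟨(x, q, p), hx, hq, hp, c⟩
  obtain ⟨⟨x, p, q⟩, ⟨hx, hp, hq, hlt⟩, hmin⟩ :=
    Set.exists_min_image _ (fun z : V × V × V => lo z.2.1 - lo z.2.2) (Set.toFinite _) hne
  refine step_ear hK hg hG hC hx hp hq hlt ?_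
  intro w ow k1 k2
  obtain ⟨y, hy, hw⟩ := ow.att
  obtain ⟨w2, hw2, c⟩ := two y w hy hw
  obtain ⟨d1, d2⟩ := (hC.nc x y hx hy q p w hq hp hw k1 k2).2 w2 hw2
  rcases c with c | c
  · have := hmin (y, w, w2) ⟨hy, hw, hw2, c⟩
    simp only at this k1 k2 d1 d2
    linarith
  · have := hmin (y, w2, w) ⟨hy, hw2, hw, c⟩
    simp only at this k1 k2 d1 d2
    linarith

theorem good_univ [Finite V] (hK : ¬ HasK4Minor G) (hg : 7 ≤ G.egirth) :
    Good G Set.univ := by
  have key : ∀ n : ℕ, ∀ S : Set V, Sᶜ.ncard = n → Good G S → Good G Set.univ := by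
    intro n
    induction n using Nat.strong_induction_on with
    | _ n ih =>
      intro S hn hS
      by_cases h : S = Set.univ
      · exact h ▸ hS
      obtain ⟨P, ⟨a, ha⟩, hd, hP⟩ := step hK hg hS h
      refine ih _ ?_ (S ∪ P) rfl hP
      rw [← hn]
      apply Set.ncard_lt_ncard _ (Set.toFinite _)
      refine ⟨Set.compl_subset_compl.mpr Set.subset_union_left, fun hc => ?_⟩
      exact hc (Set.disjoint_right.mp hd ha) (Or.inr ha)
  exact key _ ∅ rfl good_empty

theorem is2CBU_of_geo {l r b t lo hi : V → ℝ} (h : Geo G Set.univ l r b t lo hi) : Is2CBU G := by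
  refine ⟨l, r, b, t, fun v => h.box v trivial, ?_⟩
  intro u v hne
  obtain ⟨u1, u2⟩ := h.box u trivial
  obtain ⟨v1, v2⟩ := h.box v trivial
  by_cases hadj : G.Adj u v
  · obtain ⟨c1, c2, c3⟩ := h.adj u trivial v trivial hadj
    have hlt : max (b u) (b v) < min (t u) (t v) := by
      simp only [max_lt_iff, lt_min_iff]; exact ⟨⟨u2, c3⟩, c2, v2⟩
    obtain ⟨x, hx⟩ : ∃ x, Set.Icc (l u) (r u) ∩ Set.Icc (l v) (r v) = {x} := by
      rcases c1 with c | c
      · refine ⟨r u, ?_⟩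
        rw [Set.Icc_inter_Icc, ← c, max_eq_right u1.le, min_eq_left (by linarith), Set.Icc_self]
      · refine ⟨l u, ?_⟩
        rw [Set.Icc_inter_Icc, c, max_eq_left (by linarith), min_eq_right u1.le, Set.Icc_self]
    have e : (Set.Icc (l u) (r u) ×ˢ Set.Icc (b u) (t u)) ∩
        (Set.Icc (l v) (r v) ×ˢ Set.Icc (b v) (t v)) =
        {x} ×ˢ Set.Icc (max (b u) (b v)) (min (t u) (t v)) := by
      rw [Set.prod_inter_prod, hx, Set.Icc_inter_Icc]
    refine ⟨?_, Or.inr ⟨x, _, _, hlt, e⟩, ?_⟩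
    · rw [Set.disjoint_iff_inter_eq_empty, ← interior_inter, e, interior_prod_eq,
        interior_singleton, Set.empty_prod]
    · rw [e]
      exact ⟨fun _ => ⟨(x, max (b u) (b v)), rfl, le_rfl, hlt.le⟩, fun _ => hadj⟩
  · have e : (Set.Icc (l u) (r u) ×ˢ Set.Icc (b u) (t u)) ∩
        (Set.Icc (l v) (r v) ×ˢ Set.Icc (b v) (t v)) = ∅ := by
      rw [Set.eq_empty_iff_forall_notMem]
      rintro ⟨x, y⟩ ⟨⟨⟨a1, a2⟩, a3, a4⟩, ⟨a5, a6⟩, a7, a8⟩
      simp only at a1 a2 a3 a4 a5 a6 a7 a8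
      rcases h.nadj u trivial v trivial hne hadj with c | c | c | c <;> linarith only [a2, a5, c, a1, a6, a4, a7, a3, a8]
    refine ⟨?_, Or.inl e, ?_⟩
    · rw [Set.disjoint_iff_inter_eq_empty, ← interior_inter, e, interior_empty]
    · rw [e]
      exact ⟨fun a => absurd a hadj, fun a => absurd a Set.not_nonempty_empty⟩

theorem main [Finite V] (hK : ¬ HasK4Minor G) (hg : 7 ≤ G.egirth) : Is2CBU G := by
  obtain ⟨l, r, b, t, lo, hi, hG, -⟩ := good_univ hK hg
  exact is2CBU_of_geo hG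

end Pool.Agent.Work.MP_c0f83f_co
end
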